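import Pool.Agent.P8H12.SO.Stm

/-!
# Project ST: arithmetic of the bounds
-/

set_option autoImplicit false

namespace Pool.Agent.P8H12.ST

theorem mm_dvd (d s : ℕ) : mm d s ∣ (2 * (Finset.Icc 1 (max d 3)).lcm id) ^ (3 ^ s) := by
  have key : mm d s ∣ 2 ^ (3 ^ s - 1) * ((Finset.Icc 1 (max d 3)).lcm id) ^ (3 ^ s) := by
    induction s with
    | zero => simp [mm]
    | succ s ih =>
      have h1 : mm d (s + 1) = 2 * mm d s ^ 3 := rfl
      have h2 := mul_dvd_mul_left 2 (pow_dvd_pow_of_dvd ih 3)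
      rw [h1]
      refine h2.trans ?_
      have h3 : 1 ≤ 3 ^ s := Nat.one_le_pow _ _ (by norm_num)
      have e1 : 2 * (2 ^ (3 ^ s - 1) * ((Finset.Icc 1 (max d 3)).lcm id) ^ (3 ^ s)) ^ 3 =
          2 ^ (3 * (3 ^ s - 1) + 1) * ((Finset.Icc 1 (max d 3)).lcm id) ^ (3 ^ (s + 1)) := by
        rw [mul_pow, ← pow_mul, ← pow_mul, pow_succ 3 s, pow_succ 2 (3 * (3 ^ s - 1)),
          mul_comm (3 ^ s - 1) 3]
        ring
      rw [e1]
      refine mul_dvd_mul_right (pow_dvd_pow 2 ?_) _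
      rw [pow_succ]
      omega
  refine key.trans ?_
  rw [mul_pow]
  exact mul_dvd_mul_right (pow_dvd_pow 2 (Nat.sub_le _ _)) _

theorem ee_dvd (g : ℕ) : ee g ∣ (Finset.Icc 1 (2 * g)).lcm id := by
  unfold ee
  refine Finset.prod_dvd_of_isRelPrime ?_ ?_
  · intro p hp q hq hpq
    rw [Finset.mem_coe, Finset.mem_filter] at hp hq
    exact Nat.coprime_iff_isRelPrime.1 (Nat.coprime_pow_primes _ _ hp.2 hq.2 hpq)
  · intro p hp
    rw [Finset.mem_filter] at hp
    rcases Nat.eq_zero_or_pos g with h0 | h0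
    · subst h0
      simp
    · refine Finset.dvd_lcm (f := id) (Finset.mem_Icc.2 ⟨Nat.one_le_pow _ _ hp.2.pos, ?_⟩)
      exact Nat.pow_log_le_self p (by omega)

theorem ee_prime {g l : ℕ} (hl : l.Prime) (h : l ∣ ee g) : l ≤ g + 1 := by
  unfold ee at h
  obtain ⟨p, hp, h1⟩ := (Prime.dvd_finsetProd_iff hl.prime _).1 h
  rw [Finset.mem_filter, Finset.mem_range] at hp
  have h2 := (Nat.prime_dvd_prime_iff_eq hl hp.2).1 (hl.dvd_of_dvd_pow h1)
  omega

theorem ee_pos (g : ℕ) : 0 < ee g := by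
  unfold ee
  refine Finset.prod_pos fun p hp => pow_pos ?_ _
  rw [Finset.mem_filter] at hp
  exact hp.2.pos

end Pool.Agent.P8H12.ST
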