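import Pool.Agent.P8H12.ST.Ord
import Pool.Agent.P8H12.SO.Stm3

/-!
# Project PF: Galois extensions without projective factors
-/

set_option autoImplicit false

namespace Pool.Agent.P8H12.ST

open WeierstrassCurve NumberField
open Pool.Agent.Y673.Loc Pool.Agent.Y673.SL
open Pool.Agent.Q19.SU
open Pool.Agent.H901R3.MS Pool.Agent.W275.FM
open Pool.Agent.N495.TS

/-- there are finite extensions `k₁ ≤ k₂` of `F` in `L`, `k₁` Galois over `F` and `k₂` Galois over `k₁`, with the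
Galois group `PSL₂(F_l)` of `k₂` over `k₁` -/
def HasFac {k : Type} [Field k] (F L : IntermediateField k (AlgebraicClosure k)) (l : ℕ) : Prop :=
  ∃ k₁ k₂ : IntermediateField k (AlgebraicClosure k), F ≤ k₁ ∧ k₁ ≤ k₂ ∧ k₂ ≤ L ∧
    FiniteDimensional k k₂ ∧ (∀ σ ∈ F.fixingSubgroup, ∀ x ∈ k₁, σ x ∈ k₁) ∧
    ∃ f : k₁.fixingSubgroup →* Matrix.ProjectiveSpecialLinearGroup (Fin 2) (ZMod l),
      Function.Surjective f ∧
      ∀ σ : k₁.fixingSubgroup, f σ = 1 ↔
        (σ : AlgebraicClosure k ≃ₐ[k] AlgebraicClosure k) ∈ k₂.fixingSubgroup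

/-- from subgroups to fields -/
theorem hasFac_of {k : Type} [Field k] [CharZero k]
    (F L M : IntermediateField k (AlgebraicClosure k)) [FiniteDimensional k F]
    [FiniteDimensional k M] {l : ℕ}
    (A : Subgroup (AlgebraicClosure k ≃ₐ[k] AlgebraicClosure k))
    (f : A →* Matrix.ProjectiveSpecialLinearGroup (Fin 2) (ZMod l))
    (h1 : L.fixingSubgroup ≤ A) (h2 : A ≤ F.fixingSubgroup)
    (h3 : ∀ τ ∈ F.fixingSubgroup, ∀ σ ∈ A, τ * σ * τ⁻¹ ∈ A) (h4 : Function.Surjective f)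
    (h5 : ∀ τ : A, (τ : AlgebraicClosure k ≃ₐ[k] AlgebraicClosure k) ∈ L.fixingSubgroup → f τ = 1)
    (h6 : ∀ τ ∈ F.fixingSubgroup, τ ∈ M.fixingSubgroup → ∃ h : τ ∈ A, f ⟨τ, h⟩ = 1) :
    HasFac F L l := by
  set B : Subgroup (AlgebraicClosure k ≃ₐ[k] AlgebraicClosure k) := f.ker.map A.subtype with hB
  have memB : ∀ τ, τ ∈ B ↔ ∃ h : τ ∈ A, f ⟨τ, h⟩ = 1 := by
    intro τ
    constructor
    · rintro ⟨⟨σ, hσ⟩, h, rfl⟩
      exact ⟨hσ, h⟩
    · rintro ⟨h, hf⟩
      exact ⟨⟨τ, h⟩, hf, rfl⟩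
  have hBA : B ≤ A := fun τ hτ => ((memB τ).1 hτ).1
  have hFM : (F ⊔ M).fixingSubgroup ≤ B := by
    intro τ hτ
    rw [memB]
    exact h6 τ (IntermediateField.fixingSubgroup_antitone (le_sup_left (a := F) (b := M)) hτ)
      (IntermediateField.fixingSubgroup_antitone (le_sup_right (a := F) (b := M)) hτ)
  have hBo : IsOpen (B : Set (AlgebraicClosure k ≃ₐ[k] AlgebraicClosure k)) :=
    Subgroup.isOpen_mono hFM (IntermediateField.fixingSubgroup_isOpen (F ⊔ M))
  have hAo : IsOpen (A : Set (AlgebraicClosure k ≃ₐ[k] AlgebraicClosure k)) :=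
    Subgroup.isOpen_mono hBA hBo
  have hBc := Subgroup.isClosed_of_isOpen B hBo
  have hAc := Subgroup.isClosed_of_isOpen A hAo
  have eA : (IntermediateField.fixedField A).fixingSubgroup = A :=
    InfiniteGalois.fixingSubgroup_fixedField ⟨A, hAc⟩
  have eB : (IntermediateField.fixedField B).fixingSubgroup = B :=
    InfiniteGalois.fixingSubgroup_fixedField ⟨B, hBc⟩
  have hk2 : IntermediateField.fixedField B ≤ F ⊔ M := by
    rw [← InfiniteGalois.fixedField_fixingSubgroup (F ⊔ M)]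
    intro x hx
    rw [IntermediateField.mem_fixedField_iff] at hx ⊢
    exact fun τ hτ => hx τ (hFM hτ)
  refine ⟨IntermediateField.fixedField A, IntermediateField.fixedField B, ?_, ?_, ?_, ?_, ?_, ?_⟩
  · intro x hx
    rw [IntermediateField.mem_fixedField_iff]
    intro τ hτ
    exact (IntermediateField.mem_fixingSubgroup_iff _ _).1 (h2 hτ) x hx
  · intro x hx
    rw [IntermediateField.mem_fixedField_iff] at hx ⊢
    exact fun τ hτ => hx τ (hBA hτ)
  · rw [← InfiniteGalois.fixedField_fixingSubgroup L]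
    intro x hx
    rw [IntermediateField.mem_fixedField_iff] at hx ⊢
    exact fun τ hτ => hx τ ((memB τ).2 ⟨h1 hτ, h5 _ hτ⟩)
  · exact Module.Finite.of_injective (IntermediateField.inclusion hk2).toLinearMap
      (IntermediateField.inclusion_injective hk2)
  · intro σ hσ x hx
    rw [IntermediateField.mem_fixedField_iff] at hx ⊢
    intro τ hτ
    have h7 : σ⁻¹ * τ * σ ∈ A := by
      have := h3 σ⁻¹ (F.fixingSubgroup.inv_mem hσ) τ hτ
      rwa [inv_inv] at this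
    have h8 := hx _ h7
    have h9 : τ (σ x) = σ ((σ⁻¹ * τ * σ) x) := by
      rw [← AlgEquiv.mul_apply, ← AlgEquiv.mul_apply]
      congr 1
      group
    rw [h9, h8]
  · refine ⟨f.comp (MulEquiv.subgroupCongr eA).toMonoidHom, ?_, ?_⟩
    · exact h4.comp (MulEquiv.subgroupCongr eA).surjective
    · intro σ
      rw [eB, memB]
      constructor
      · intro h
        exact ⟨(MulEquiv.subgroupCongr eA σ).2, h⟩
      · rintro ⟨h, hf⟩
        exact hf

/-- embeddings of an algebraic extension are conjugate -/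
theorem conj_emb {k K : Type} [Field k] [Field K] [Algebra k K] [Algebra.IsAlgebraic k K]
    (i j : K →ₐ[k] AlgebraicClosure k) :
    ∃ ρ : AlgebraicClosure k ≃ₐ[k] AlgebraicClosure k, ∀ x, ρ (i x) = j x := by
  have ext : ∀ i : K →ₐ[k] AlgebraicClosure k, ∃ e : AlgebraicClosure K ≃+* AlgebraicClosure k,
      ∀ x : K, e (algebraMap K (AlgebraicClosure K) x) = i x := by
    intro i
    letI : Algebra K (AlgebraicClosure k) := i.toRingHom.toAlgebra
    have ht : IsScalarTower k K (AlgebraicClosure k) := IsScalarTower.of_algebraMap_eq fun x =>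
      (i.commutes x).symm
    have ha : Algebra.IsAlgebraic K (AlgebraicClosure k) :=
      Algebra.IsAlgebraic.tower_top (K := k) K
    have hc : IsAlgClosure K (AlgebraicClosure k) := ⟨inferInstance, ha⟩
    refine ⟨(IsAlgClosure.equiv K (AlgebraicClosure K) (AlgebraicClosure k)).toRingEquiv,
      fun x => ?_⟩
    exact (IsAlgClosure.equiv K (AlgebraicClosure K) (AlgebraicClosure k)).commutes x
  obtain ⟨e₁, h1⟩ := ext i
  obtain ⟨e₂, h2⟩ := ext j
  have h3 : ∀ x, (e₁.symm.trans e₂) (i x) = j x := by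
    intro x
    rw [RingEquiv.trans_apply, ← h1, RingEquiv.symm_apply_apply, h2]
  refine ⟨AlgEquiv.ofRingEquiv (f := e₁.symm.trans e₂) ?_, ?_⟩
  · intro x
    have h4 := h3 (algebraMap k K x)
    rw [i.commutes, j.commutes] at h4
    exact h4
  · intro x
    exact h3 x

open scoped Classical in
/-- a point is fixed by the group of a finite extension -/
theorem opn {k : Type} [Field k] (A B : k) (P : EP A B) :
    ∃ M : IntermediateField k (AlgebraicClosure k), FiniteDimensional k M ∧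
      ∀ τ ∈ M.fixingSubgroup, act A B τ P = P := by
  rcases P with _ | ⟨x, y, h⟩
  · exact ⟨⊥, inferInstance, fun τ _ => rfl⟩
  · refine ⟨IntermediateField.adjoin k {x, y}, ?_, ?_⟩
    · exact IntermediateField.finiteDimensional_adjoin fun z _ =>
        (Algebra.IsAlgebraic.isAlgebraic z).isIntegral
    · intro τ hτ
      rw [IntermediateField.mem_fixingSubgroup_iff] at hτ
      have hx : τ x = x := hτ x (IntermediateField.subset_adjoin _ _ (by simp))
      have hy : τ y = y := hτ y (IntermediateField.subset_adjoin _ _ (by simp))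
      unfold act
      rw [Affine.Point.map_some]
      congr

open scoped Classical in
/-- **the image of the group of an extension without projective factors** -/
theorem fac (hC : S_CORE) {k : Type} [Field k] [NumberField k] {A B : k} (hL : LQ A B)
    (F L : IntermediateField k (AlgebraicClosure k)) (hFL : F ≤ L) [FiniteDimensional k F] {d : ℕ}
    (hd : Module.finrank k F ≤ d) (hn : ∀ σ ∈ F.fixingSubgroup, ∀ x ∈ L, σ x ∈ L)
    (ρ : AlgebraicClosure k ≃ₐ[k] AlgebraicClosure k) {l a : ℕ} (hl : l.Prime) (hld : max d 3 < l)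
    (ha : 1 ≤ a) (hno : ¬ HasFac F L l) :
    ∃ P Q : EP A B, Gen.Bas (l ^ a) P Q ∧ ∀ p b c e : ℤ, ((l ^ a : ℕ) : ℤ) ∣ p * e - b * c - 1 →
      ∃ τ ∈ L.fixingSubgroup, act A B (ρ * τ * ρ⁻¹) P = p • P + c • Q ∧
        act A B (ρ * τ * ρ⁻¹) Q = b • P + e • Q := by
  obtain ⟨P, Q, hB, hSL⟩ := lq_pow hL hl a
  refine ⟨P, Q, hB, ?_⟩
  have hmul : ∀ (σ τ : AlgebraicClosure k ≃ₐ[k] AlgebraicClosure k) (v : EP A B),
      act A B (ρ * (σ * τ) * ρ⁻¹) v = act A B (ρ * σ * ρ⁻¹) (act A B (ρ * τ * ρ⁻¹) v) := by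
    intro σ τ v
    rw [← act_mul]
    congr 2
    group
  have hone : ∀ v : EP A B, act A B (ρ * 1 * ρ⁻¹) v = v := by
    intro v
    rw [mul_one, mul_inv_cancel, act_one]
  have hpow : ∀ σ : AlgebraicClosure k ≃ₐ[k] AlgebraicClosure k,
      ∃ r : ℕ, 1 ≤ r ∧ r ≤ d ∧ σ ^ r ∈ F.fixingSubgroup := by
    intro σ
    have hidx : F.fixingSubgroup.index = Module.finrank k F :=
      (IntermediateField.finrank_eq_fixingSubgroup_index (AlgebraicClosure k) F).symm
    have h0 : F.fixingSubgroup.index ≠ 0 := by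
      rw [hidx]
      exact Module.finrank_pos.ne'
    obtain ⟨r, h1, h2, h3⟩ := Subgroup.exists_pow_mem_of_index_ne_zero h0 σ
    exact ⟨r, h1, h2.trans (hidx.le.trans hd), h3⟩
  have hHL : L.fixingSubgroup ≤ F.fixingSubgroup := IntermediateField.fixingSubgroup_antitone hFL
  have hnorm : ∀ τ ∈ F.fixingSubgroup, ∀ σ ∈ L.fixingSubgroup, τ * σ * τ⁻¹ ∈ L.fixingSubgroup := by
    intro τ hτ σ hσ
    rw [IntermediateField.mem_fixingSubgroup_iff] at hσ ⊢
    intro x hx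
    have h1 : τ⁻¹ x ∈ L := hn _ (F.fixingSubgroup.inv_mem hτ) x hx
    rw [AlgEquiv.mul_apply, AlgEquiv.mul_apply, hσ _ h1, ← AlgEquiv.mul_apply, mul_inv_cancel,
      AlgEquiv.one_apply]
  rcases hC (AlgebraicClosure k ≃ₐ[k] AlgebraicClosure k) (EP A B)
    (fun τ => act A B (ρ * τ * ρ⁻¹)) hmul hone l a d hl hld ha P Q hB.hP hB.hQ hB.span hB.ind
    (by
      intro p b c e h
      obtain ⟨σ, h1, h2⟩ := hSL p b c e h
      have e1 : ρ * (ρ⁻¹ * σ * ρ) * ρ⁻¹ = σ := by group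
      exact ⟨ρ⁻¹ * σ * ρ, by rw [e1]; exact h1, by rw [e1]; exact h2⟩)
    F.fixingSubgroup L.fixingSubgroup hHL hnorm hpow with h | ⟨A', f, g1, g2, g3, g4, g5, g6⟩
  · exact h
  · exfalso
    apply hno
    obtain ⟨M₁, hM₁, hP⟩ := opn A B P
    obtain ⟨M₂, hM₂, hQ⟩ := opn A B Q
    let M : IntermediateField k (AlgebraicClosure k) :=
      (M₁ ⊔ M₂).map ((ρ⁻¹ : AlgebraicClosure k ≃ₐ[k] AlgebraicClosure k) :
        AlgebraicClosure k →ₐ[k] AlgebraicClosure k)
    have hM : FiniteDimensional k M :=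
      LinearEquiv.finiteDimensional (IntermediateField.equivMap (M₁ ⊔ M₂)
        ((ρ⁻¹ : AlgebraicClosure k ≃ₐ[k] AlgebraicClosure k) :
        AlgebraicClosure k →ₐ[k] AlgebraicClosure k)).toLinearEquiv
    have hMf : ∀ τ ∈ M.fixingSubgroup, ρ * τ * ρ⁻¹ ∈ (M₁ ⊔ M₂).fixingSubgroup := by
      intro τ hτ
      rw [IntermediateField.mem_fixingSubgroup_iff] at hτ ⊢
      intro x hx
      have h1 : τ (ρ⁻¹ x) = ρ⁻¹ x := hτ _ ⟨x, hx, rfl⟩
      rw [AlgEquiv.mul_apply, AlgEquiv.mul_apply, h1, ← AlgEquiv.mul_apply, mul_inv_cancel,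
        AlgEquiv.one_apply]
    refine hasFac_of F L M A' f g1 g2 g3 g4 g5 fun τ hτ hτM => g6 τ hτ ?_ ?_
    · exact hP _ (IntermediateField.fixingSubgroup_antitone (le_sup_left (a := M₁) (b := M₂))
        (hMf τ hτM))
    · exact hQ _ (IntermediateField.fixingSubgroup_antitone (le_sup_right (a := M₁) (b := M₂))
        (hMf τ hτM))

/-- `K` can be embedded over `k` in an extension `L`, normal over an extension `F` of `k` of degree `≤ d`, without
factors `PSL₂(F_l)`, `l > max(d, 3)` -/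
def NoFac (k K : Type) [Field k] [Field K] [Algebra k K] (d : ℕ) : Prop :=
  ∃ (F L : IntermediateField k (AlgebraicClosure k)) (i : K →ₐ[k] AlgebraicClosure k),
    F ≤ L ∧ FiniteDimensional k F ∧ Module.finrank k F ≤ d ∧
      (∀ σ ∈ F.fixingSubgroup, ∀ x ∈ L, σ x ∈ L) ∧ (∀ x, i x ∈ L) ∧
      ∀ l : ℕ, l.Prime → max d 3 < l → ¬ HasFac F L l

open scoped Classical in
/-- **the order of a stable cyclic subgroup of an elliptic curve over an extension without projective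
factors** -/
theorem ordC (hC : S_CORE) {k : Type} [Field k] [NumberField k] {K : Type} [Field K]
    [CharZero K] [Algebra k K] {d : ℕ} (hK : NoFac k K d) {A B : K}
    (hD : 4 * A ^ 3 + 27 * B ^ 2 ≠ 0) {j : k} (hj : LJk j) (hjv : jv A B = algebraMap k K j)
    {e₁ : ℕ} {c : EP A B} (hc : IsOfFinAddOrder c)
    (hst : ∀ σ : AlgebraicClosure K ≃ₐ[K] AlgebraicClosure K,
      act A B (σ ^ e₁) c ∈ AddSubgroup.zmultiples c) {l a : ℕ} (hl : l.Prime) (hld : max d 3 < l)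
    (hla : l ^ a ∣ addOrderOf c) : l ^ a ∣ e₁ := by
  rcases Nat.eq_zero_or_pos a with h0 | ha
  · subst h0
    rw [pow_zero]
    exact one_dvd _
  obtain ⟨F, L, i, hFL, hfd, hd, hn, hiL, hno⟩ := hK
  have hal : Algebra.IsAlgebraic k K := Algebra.IsAlgebraic.of_injective i i.injective
  obtain ⟨j₀, θ, hθ, htw⟩ := tw_alg (k := k) K
  obtain ⟨ρ, hρ⟩ := conj_emb i j₀
  have hj0 : algebraMap k K j ≠ 0 := by
    rw [Ne, map_eq_zero]
    exact hj.1
  have hj1 : algebraMap k K j ≠ 1728 := fun h => by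
    apply hj.2.1
    apply (algebraMap k K).injective
    rw [h, map_ofNat]
  obtain ⟨A₀, B₀, φ, ⟨hD0, hjv0⟩, hφ, hφ2⟩ : ∃ (A₀ B₀ : k) (φ : EP A B →+ EP A₀ B₀),
      (4 * A₀ ^ 3 + 27 * B₀ ^ 2 ≠ 0 ∧ jv A₀ B₀ = j) ∧
      Function.Injective φ ∧ ∀ σ, (∀ P, φ (act A B σ P) = act A₀ B₀ (θ σ) (φ P)) ∨
        (∀ P, φ (act A B σ P) = - act A₀ B₀ (θ σ) (φ P)) := by
    obtain ⟨r, hr0, hr1, hr2⟩ := Pool.Agent.Y673.SN.twist_of hD hjv hj0 hj1
    have hne : j - 1728 ≠ 0 := sub_ne_zero.2 hj.2.1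
    have hD0 : 4 * (-3 * j * (j - 1728)) ^ 3 + 27 * (-2 * j * (j - 1728) ^ 2) ^ 2 ≠ 0 := by
      have e : 4 * (-3 * j * (j - 1728)) ^ 3 + 27 * (-2 * j * (j - 1728) ^ 2) ^ 2 =
          -186624 * j ^ 2 * (j - 1728) ^ 3 := by ring
      rw [e]
      exact mul_ne_zero (mul_ne_zero (by norm_num) (pow_ne_zero 2 hj.1)) (pow_ne_zero 3 hne)
    have hjv0 : jv (-3 * j * (j - 1728)) (-2 * j * (j - 1728) ^ 2) = j := by
      unfold jv
      rw [div_eq_iff hD0]
      ring
    obtain ⟨φ, h1, h2⟩ := htw A B r (-3 * j * (j - 1728)) (-2 * j * (j - 1728) ^ 2)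
      hr0 (by
        rw [← hr1]
        simp only [map_mul, map_neg, map_sub, map_ofNat]) (by
        rw [← hr2]
        simp only [map_mul, map_neg, map_sub, map_pow, map_ofNat])
    exact ⟨_, _, φ, ⟨hD0, hjv0⟩, h1, h2⟩
  have hL : LQ A₀ B₀ := hj.2.2 _ _ hD0 hjv0
  have ho : addOrderOf (φ c) = addOrderOf c := addOrderOf_injective φ hφ c
  have hpos : 0 < addOrderOf c := hc.addOrderOf_pos
  obtain ⟨P, Q, hB, hPQ⟩ := fac hC hL F L hFL hd hn ρ hl hld ha (hno l hl hld)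
  -- stability on the curve over the base field
  have hstk : ∀ τ ∈ L.fixingSubgroup,
      act A₀ B₀ ((ρ * τ * ρ⁻¹) ^ e₁) (φ c) ∈ AddSubgroup.zmultiples (φ c) := by
    intro τ hτ
    rw [IntermediateField.mem_fixingSubgroup_iff] at hτ
    obtain ⟨σ, hσ⟩ := hθ (ρ * τ * ρ⁻¹) (fun x => by
      have h1 : ρ⁻¹ (j₀ x) = i x := by
        rw [← hρ, ← AlgEquiv.mul_apply, inv_mul_cancel, AlgEquiv.one_apply]
      rw [AlgEquiv.mul_apply, AlgEquiv.mul_apply, h1, hτ _ (hiL x), hρ])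
    rw [← hσ]
    obtain ⟨u, hu⟩ := AddSubgroup.mem_zmultiples_iff.1 (hst σ)
    rcases sgn (hφ2 σ) e₁ with h | h
    · refine AddSubgroup.mem_zmultiples_iff.2 ⟨u, ?_⟩
      rw [← h c, ← hu, map_zsmul]
    · refine AddSubgroup.mem_zmultiples_iff.2 ⟨-u, ?_⟩
      have h2 := h c
      rw [← hu, map_zsmul] at h2
      rw [neg_zsmul, h2, neg_neg]
  obtain ⟨m, hm⟩ := hla
  have hm0 : m ≠ 0 := by
    rintro rfl
    omega
  have hy : addOrderOf (m • φ c) = l ^ a := by
    rw [addOrderOf_nsmul' _ hm0, ho, hm, Nat.gcd_mul_left_left,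
      Nat.mul_div_cancel _ (Nat.pos_of_ne_zero hm0)]
  obtain ⟨τ, hτ, t1, t2⟩ := hPQ 1 1 0 1 (by simp)
  obtain ⟨τ', hτ', t1', t2'⟩ := hPQ 1 0 1 1 (by simp)
  rw [one_smul, zero_zsmul, add_zero] at t1
  rw [one_smul, one_smul] at t2
  rw [one_smul, one_smul] at t1'
  rw [one_smul, zero_zsmul, zero_add] at t2'
  have p1 : ∀ κ : AlgebraicClosure k ≃ₐ[k] AlgebraicClosure k, act A₀ B₀ κ P = P →
      act A₀ B₀ κ Q = P + Q → ∀ n : ℕ, act A₀ B₀ (κ ^ n) P = P ∧
      act A₀ B₀ (κ ^ n) Q = Q + (n : ℤ) • P := by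
    intro κ t1 t2 n
    induction n with
    | zero => rw [pow_zero, act_one, act_one, Nat.cast_zero, zero_zsmul, add_zero]; exact ⟨rfl, rfl⟩
    | succ n ih =>
      rw [pow_succ, act_mul, act_mul, t1, t2, map_add, ih.1, ih.2]
      refine ⟨rfl, ?_⟩
      push_cast
      module
  have p2 : ∀ κ : AlgebraicClosure k ≃ₐ[k] AlgebraicClosure k, act A₀ B₀ κ P = P + Q →
      act A₀ B₀ κ Q = Q → ∀ n : ℕ, act A₀ B₀ (κ ^ n) P = P + (n : ℤ) • Q ∧
      act A₀ B₀ (κ ^ n) Q = Q := by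
    intro κ t1 t2 n
    induction n with
    | zero => rw [pow_zero, act_one, act_one, Nat.cast_zero, zero_zsmul, add_zero]; exact ⟨rfl, rfl⟩
    | succ n ih =>
      rw [pow_succ, act_mul, act_mul, t1, t2, map_add, ih.1, ih.2]
      refine ⟨?_, rfl⟩
      push_cast
      module
  have q1 := p1 _ t1 t2 e₁
  have q2 := p2 _ t1' t2' e₁
  exact line hl hB hy e₁ (act A₀ B₀ ((ρ * τ * ρ⁻¹) ^ e₁)) (act A₀ B₀ ((ρ * τ' * ρ⁻¹) ^ e₁))
    q1.1 q1.2 q2.1 q2.2 (stab_smul' (hstk τ hτ) m) (stab_smul' (hstk τ' hτ') m)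

end Pool.Agent.P8H12.ST
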