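import Mathlib

/-!
# Project ST: powers of automorphisms fix finite extensions
-/

set_option autoImplicit false

namespace Pool.Agent.P8H12.ST

theorem pow_fix {K : Type} [Field K] (M : IntermediateField K (AlgebraicClosure K))
    [FiniteDimensional K M] (σ : AlgebraicClosure K ≃ₐ[K] AlgebraicClosure K) :
    ∃ t : ℕ, 0 < t ∧ σ ^ t ∈ M.fixingSubgroup := by
  obtain ⟨a, b, hab, he⟩ := Finite.exists_ne_map_eq_of_infinite
    (fun i : ℕ => ((σ ^ i : AlgebraicClosure K ≃ₐ[K] AlgebraicClosure K) :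
      AlgebraicClosure K →ₐ[K] AlgebraicClosure K).comp M.val)
  wlog hlt : a < b generalizing a b
  · exact this b a hab.symm he.symm (by omega)
  refine ⟨b - a, by omega, ?_⟩
  rw [IntermediateField.mem_fixingSubgroup_iff]
  intro x hx
  have h1 : (σ ^ a) x = (σ ^ b) x := DFunLike.congr_fun he (⟨x, hx⟩ : M)
  have h2 : σ ^ b = σ ^ a * σ ^ (b - a) := by
    rw [← pow_add]
    congr 1
    omega
  rw [h2, AlgEquiv.mul_apply] at h1
  exact ((σ ^ a).injective h1).symm

end Pool.Agent.P8H12.ST
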