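import Mathlib
import Pool.Agent.Q19.SU.Gen

/-!
# Project ST: the order of a cyclic subgroup stable under unipotents
-/

set_option autoImplicit false

namespace Pool.Agent.P8H12.ST

open Pool.Agent.Q19.SU

theorem line {V : Type*} [AddCommGroup V] {l a : ℕ} (hl : l.Prime) {P Q y : V}
    (hB : Gen.Bas (l ^ a) P Q) (hy : addOrderOf y = l ^ a) (e : ℕ) (f₁ f₂ : V →+ V)
    (h₁ : f₁ P = P) (h₁' : f₁ Q = Q + (e : ℤ) • P) (h₂ : f₂ P = P + (e : ℤ) • Q) (h₂' : f₂ Q = Q)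
    (s₁ : f₁ y ∈ AddSubgroup.zmultiples y) (s₂ : f₂ y ∈ AddSubgroup.zmultiples y) : l ^ a ∣ e := by
  have hn : ((l ^ a : ℕ) : ℤ) • y = 0 := by
    rw [natCast_zsmul, ← hy]
    exact addOrderOf_nsmul_eq_zero y
  obtain ⟨α, γ, hαγ⟩ := hB.span y hn
  have hlZ : Prime (l : ℤ) := Nat.prime_iff_prime_int.1 hl
  rcases Nat.eq_zero_or_pos a with h0 | h0
  · subst h0
    simp
  -- one of the coordinates is prime to `l`
  have hprim : ¬ ((l : ℤ) ∣ α ∧ (l : ℤ) ∣ γ) := by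
    rintro ⟨⟨α', rfl⟩, ⟨γ', rfl⟩⟩
    have h1 : l ^ (a - 1) • y = 0 := by
      have e1 : ((l ^ (a - 1) : ℕ) : ℤ) * l = ((l ^ a : ℕ) : ℤ) := by
        push_cast
        rw [← pow_succ]
        congr 1
        omega
      have e2 : ((l ^ (a - 1) : ℕ) : ℤ) • y = α' • (((l ^ a : ℕ) : ℤ) • P) +
          γ' • (((l ^ a : ℕ) : ℤ) • Q) := by
        rw [hαγ, ← e1]
        module
      rw [hB.hP, hB.hQ, smul_zero, smul_zero, add_zero, natCast_zsmul] at e2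
      exact e2
    have h2 : l ^ a ∣ l ^ (a - 1) := by
      rw [← hy]
      exact addOrderOf_dvd_of_nsmul_eq_zero h1
    have h3 := (Nat.pow_dvd_pow_iff_le_right hl.one_lt).1 h2
    omega
  obtain ⟨u, hu⟩ := AddSubgroup.mem_zmultiples_iff.1 s₁
  obtain ⟨v, hv⟩ := AddSubgroup.mem_zmultiples_iff.1 s₂
  have k1 : ((l ^ a : ℕ) : ℤ) ∣ (u - 1) * α - γ * e ∧ ((l ^ a : ℕ) : ℤ) ∣ (u - 1) * γ := by
    refine hB.ind _ _ ?_
    have e1 : f₁ y = y + (γ * e) • P := by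
      rw [hαγ, map_add, map_zsmul, map_zsmul, h₁, h₁']
      module
    have e2 : u • y - y - (γ * e) • P = 0 := by
      rw [hu, e1]
      abel
    rw [← e2, hαγ]
    module
  have k2 : ((l ^ a : ℕ) : ℤ) ∣ (v - 1) * α ∧ ((l ^ a : ℕ) : ℤ) ∣ (v - 1) * γ - α * e := by
    refine hB.ind _ _ ?_
    have e1 : f₂ y = y + (α * e) • Q := by
      rw [hαγ, map_add, map_zsmul, map_zsmul, h₂, h₂']
      module
    have e2 : v • y - y - (α * e) • Q = 0 := by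
      rw [hv, e1]
      abel
    rw [← e2, hαγ]
    module
  have fin : ∀ {c : ℤ}, ¬ (l : ℤ) ∣ c → ((l ^ a : ℕ) : ℤ) ∣ c * e → l ^ a ∣ e := by
    intro c hc h
    have h1 : IsCoprime ((l ^ a : ℕ) : ℤ) c := by
      push_cast
      exact IsCoprime.pow_left ((Prime.coprime_iff_not_dvd hlZ).2 hc)
    exact_mod_cast h1.dvd_of_dvd_mul_left h
  by_cases hγ : (l : ℤ) ∣ γ
  · have hα : ¬ (l : ℤ) ∣ α := fun h => hprim ⟨h, hγ⟩
    have h1 : IsCoprime ((l ^ a : ℕ) : ℤ) α := by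
      push_cast
      exact IsCoprime.pow_left ((Prime.coprime_iff_not_dvd hlZ).2 hα)
    have h2 : ((l ^ a : ℕ) : ℤ) ∣ v - 1 := h1.dvd_of_dvd_mul_right k2.1
    refine fin hα ?_
    have h3 := dvd_sub (Dvd.dvd.mul_right h2 γ) k2.2
    have e3 : (v - 1) * γ - ((v - 1) * γ - α * e) = α * e := by ring
    rw [e3] at h3
    exact h3
  · have h1 : IsCoprime ((l ^ a : ℕ) : ℤ) γ := by
      push_cast
      exact IsCoprime.pow_left ((Prime.coprime_iff_not_dvd hlZ).2 hγ)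
    have h2 : ((l ^ a : ℕ) : ℤ) ∣ u - 1 := h1.dvd_of_dvd_mul_right k1.2
    refine fin hγ ?_
    have h3 := dvd_sub (Dvd.dvd.mul_right h2 α) k1.1
    have e3 : (u - 1) * α - ((u - 1) * α - γ * e) = γ * e := by ring
    rw [e3] at h3
    exact h3

end Pool.Agent.P8H12.ST
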