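import Pool.Agent.P8H12.SO.Stm
import Pool.Agent.P8H12.ST.Line

/-!
# Project ST: from matrices to stable cyclic subgroups
-/

set_option autoImplicit false

namespace Pool.Agent.P8H12.ST

open Pool.Agent.Q19.SU Matrix
open scoped commutatorElement

section
variable {G V : Type} [Group G] [AddCommGroup V]

/-- multiples by residue classes -/
noncomputable def ml (n : ℕ) (P : V) (hP : (n : ℤ) • P = 0) : ZMod n →+ V :=
  ZMod.lift n ⟨zmultiplesHom V P, by simpa using hP⟩

theorem ml_int {n : ℕ} {P : V} (hP : (n : ℤ) • P = 0) (x : ℤ) : ml n P hP (x : ZMod n) = x • P := by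
  unfold ml
  rw [ZMod.lift_coe]
  rfl

theorem ml_mul {n : ℕ} {P : V} (hP : (n : ℤ) • P = 0) (x : ℤ) (m : ZMod n) :
    x • ml n P hP m = ml n P hP ((x : ZMod n) * m) := by
  rw [← map_zsmul, zsmul_eq_mul]

/-- `τ` acts on the two elements as the matrix `M` -/
def Rep {n : ℕ} (act : G → V →+ V) {P Q : V} (hB : Gen.Bas n P Q) (τ : G)
    (M : Matrix.SpecialLinearGroup (Fin 2) (ZMod n)) : Prop :=
  act τ P = ml n P hB.hP (M 0 0) + ml n Q hB.hQ (M 1 0) ∧
    act τ Q = ml n P hB.hP (M 0 1) + ml n Q hB.hQ (M 1 1)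

variable {n : ℕ} {act : G → V →+ V} {P Q : V} {hB : Gen.Bas n P Q}

theorem Rep.app {τ : G} {M : Matrix.SpecialLinearGroup (Fin 2) (ZMod n)} (h : Rep act hB τ M)
    (x y : ZMod n) : act τ (ml n P hB.hP x + ml n Q hB.hQ y) =
      ml n P hB.hP (M 0 0 * x + M 0 1 * y) + ml n Q hB.hQ (M 1 0 * x + M 1 1 * y) := by
  obtain ⟨x, rfl⟩ := ZMod.intCast_surjective x
  obtain ⟨y, rfl⟩ := ZMod.intCast_surjective y
  rw [map_add, ml_int, ml_int, map_zsmul, map_zsmul, h.1, h.2, smul_add, smul_add,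
    ml_mul, ml_mul, ml_mul, ml_mul, map_add, map_add]
  rw [mul_comm (M 0 0), mul_comm (M 0 1), mul_comm (M 1 0), mul_comm (M 1 1)]
  abel

variable (hmul : ∀ (σ τ : G) (v : V), act (σ * τ) v = act σ (act τ v)) (hone : ∀ v : V, act 1 v = v)

include hmul in
theorem Rep.mul {τ τ' : G} {M M' : Matrix.SpecialLinearGroup (Fin 2) (ZMod n)} (h : Rep act hB τ M)
    (h' : Rep act hB τ' M') : Rep act hB (τ * τ') (M * M') := by
  constructor
  · rw [hmul, h'.1, h.app]
    simp [Matrix.mul_apply, Fin.sum_univ_two]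
  · rw [hmul, h'.2, h.app]
    simp [Matrix.mul_apply, Fin.sum_univ_two]

include hone in
theorem Rep.one : Rep act hB (1 : G) (1 : Matrix.SpecialLinearGroup (Fin 2) (ZMod n)) := by
  constructor
  · rw [hone]
    have := ml_int hB.hP 1
    simp only [Int.cast_one, one_smul] at this
    simp [this]
  · rw [hone]
    have := ml_int hB.hQ 1
    simp only [Int.cast_one, one_smul] at this
    simp [this]

include hmul hone in
theorem Rep.inv {τ : G} {M : Matrix.SpecialLinearGroup (Fin 2) (ZMod n)} (h : Rep act hB τ M) :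
    Rep act hB τ⁻¹ M⁻¹ := by
  have key : ∀ {v w : V}, act τ w = v → act τ⁻¹ v = w := by
    rintro v w rfl
    rw [← hmul, inv_mul_cancel, hone]
  have o := Rep.one (hB := hB) hone
  rw [← mul_inv_cancel M] at o
  have e2 : ∀ i j, (M * M⁻¹) i j = M i 0 * M⁻¹ 0 j + M i 1 * M⁻¹ 1 j := by
    intro i j
    show ((M * M⁻¹ : Matrix.SpecialLinearGroup (Fin 2) (ZMod n)) : Matrix (Fin 2) (Fin 2) (ZMod n)) i j = _
    rw [Matrix.SpecialLinearGroup.coe_mul, Matrix.mul_apply, Fin.sum_univ_two]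
  constructor
  · refine key ?_
    rw [h.app]
    have := o.1
    rw [hone] at this
    refine Eq.trans ?_ this.symm
    rw [e2 0 0, e2 1 0]
  · refine key ?_
    rw [h.app]
    have := o.2
    rw [hone] at this
    refine Eq.trans ?_ this.symm
    rw [e2 0 1, e2 1 1]

include hmul hone in
theorem Rep.pow {τ : G} {M : Matrix.SpecialLinearGroup (Fin 2) (ZMod n)} (h : Rep act hB τ M) (m : ℕ) :
    Rep act hB (τ ^ m) (M ^ m) := by
  induction m with
  | zero =>
    rw [pow_zero, pow_zero]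
    exact Rep.one hone
  | succ m ih =>
    rw [pow_succ, pow_succ]
    exact Rep.mul hmul ih h

/-- the matrices of a subgroup -/
def Im (hB : Gen.Bas n P Q) (hmul : ∀ (σ τ : G) (v : V), act (σ * τ) v = act σ (act τ v))
    (hone : ∀ v : V, act 1 v = v) (H : Subgroup G) : Subgroup (Matrix.SpecialLinearGroup (Fin 2) (ZMod n)) where
  carrier := {M | ∃ τ ∈ H, Rep act hB τ M}
  mul_mem' := by
    rintro M M' ⟨τ, hτ, h⟩ ⟨τ', hτ', h'⟩
    exact ⟨τ * τ', H.mul_mem hτ hτ', Rep.mul hmul h h'⟩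
  one_mem' := ⟨1, H.one_mem, Rep.one hone⟩
  inv_mem' := by
    rintro M ⟨τ, hτ, h⟩
    exact ⟨τ⁻¹, H.inv_mem hτ, Rep.inv hmul hone h⟩

theorem mem_Im {H : Subgroup G} {M : Matrix.SpecialLinearGroup (Fin 2) (ZMod n)} :
    M ∈ Im hB hmul hone H ↔ ∃ τ ∈ H, Rep act hB τ M := Iff.rfl

theorem der_Im (H : Subgroup G) (s : ℕ) :
    der (Im hB hmul hone H) s ≤ Im hB hmul hone (der H s) := by
  induction s with
  | zero => exact le_rfl
  | succ s ih =>
    show ⁅der (Im hB hmul hone H) s, der (Im hB hmul hone H) s⁆ ≤ _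
    rw [Subgroup.commutator_le]
    intro M hM M' hM'
    obtain ⟨τ, hτ, h⟩ := ih hM
    obtain ⟨τ', hτ', h'⟩ := ih hM'
    refine ⟨⁅τ, τ'⁆, Subgroup.commutator_mem_commutator hτ hτ', ?_⟩
    rw [commutatorElement_def, commutatorElement_def]
    exact Rep.mul hmul (Rep.mul hmul (Rep.mul hmul h h') (Rep.inv hmul hone h)) (Rep.inv hmul hone h')

theorem up_mul {R : Type} [CommRing R] (x y : R) : up x * up y = up (x + y) := by
  apply Subtype.ext
  show !![1, x; 0, 1] * !![1, y; 0, 1] = !![1, x + y; 0, 1]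
  rw [Matrix.mul_fin_two]
  simp [add_comm]

theorem lo_mul {R : Type} [CommRing R] (x y : R) : lo x * lo y = lo (x + y) := by
  apply Subtype.ext
  show !![1, 0; x, 1] * !![1, 0; y, 1] = !![1, 0; x + y, 1]
  rw [Matrix.mul_fin_two]
  simp

theorem up_zero {R : Type} [CommRing R] : up (0 : R) = 1 := by
  apply Subtype.ext
  show !![1, 0; 0, 1] = (1 : Matrix (Fin 2) (Fin 2) R)
  rw [Matrix.one_fin_two]

theorem lo_zero {R : Type} [CommRing R] : lo (0 : R) = 1 := by
  apply Subtype.ext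
  show !![1, 0; 0, 1] = (1 : Matrix (Fin 2) (Fin 2) R)
  rw [Matrix.one_fin_two]

theorem up_pow {R : Type} [CommRing R] (x : R) (m : ℕ) : up x ^ m = up (m * x) := by
  induction m with
  | zero => rw [pow_zero, Nat.cast_zero, zero_mul, up_zero]
  | succ m ih =>
    rw [pow_succ, ih, up_mul]
    congr 1
    push_cast
    ring

theorem lo_pow {R : Type} [CommRing R] (x : R) (m : ℕ) : lo x ^ m = lo (m * x) := by
  induction m with
  | zero => rw [pow_zero, Nat.cast_zero, zero_mul, lo_zero]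
  | succ m ih =>
    rw [pow_succ, ih, lo_mul]
    congr 1
    push_cast
    ring

end

/-- **the order of an element which generates a subgroup stable under powers of the elements of an
iterated commutator subgroup** -/
theorem key (hU : S_UNI) {G V : Type} [Group G] [AddCommGroup V] (act : G → V →+ V)
    (hmul : ∀ (σ τ : G) (v : V), act (σ * τ) v = act σ (act τ v)) (hone : ∀ v : V, act 1 v = v)
    {l a d s : ℕ} (hl : l.Prime) (hd : 1 ≤ d) {P Q : V} (hB : Gen.Bas (l ^ a) P Q)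
    (hSL : ∀ a' b c e : ℤ, ((l ^ a : ℕ) : ℤ) ∣ a' * e - b * c - 1 →
      ∃ σ : G, act σ P = a' • P + c • Q ∧ act σ Q = b • P + e • Q)
    (H : Subgroup G) (hH : ∀ σ : G, ∃ r : ℕ, 1 ≤ r ∧ r ≤ d ∧ σ ^ r ∈ H) (e₁ : ℕ) (y : V)
    (hy : addOrderOf y = l ^ a)
    (hst : ∀ τ ∈ der H s, act (τ ^ e₁) y ∈ AddSubgroup.zmultiples y) :
    l ^ a ∣ mm d s * e₁ ∧ (max d 3 < l → l ^ a ∣ e₁) := by
  have hS : ∀ M : Matrix.SpecialLinearGroup (Fin 2) (ZMod (l ^ a)), ∃ r : ℕ, 1 ≤ r ∧ r ≤ d ∧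
      M ^ r ∈ Im hB hmul hone H := by
    intro M
    obtain ⟨a', ha⟩ := ZMod.intCast_surjective (M 0 0)
    obtain ⟨b, hb⟩ := ZMod.intCast_surjective (M 0 1)
    obtain ⟨c, hc⟩ := ZMod.intCast_surjective (M 1 0)
    obtain ⟨e, he⟩ := ZMod.intCast_surjective (M 1 1)
    have hdet : ((l ^ a : ℕ) : ℤ) ∣ a' * e - b * c - 1 := by
      rw [← ZMod.intCast_zmod_eq_zero_iff_dvd]
      push_cast
      have h1 := M.2
      rw [Matrix.det_fin_two] at h1
      rw [ha, hb, hc, he, h1]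
      ring
    obtain ⟨σ, h1, h2⟩ := hSL a' b c e hdet
    have hrep : Rep act hB σ M := by
      refine ⟨?_, ?_⟩
      · rw [h1, ← ha, ← hc, ml_int, ml_int]
      · rw [h2, ← hb, ← he, ml_int, ml_int]
    obtain ⟨r, hr1, hr2, hr3⟩ := hH σ
    exact ⟨r, hr1, hr2, σ ^ r, hr3, Rep.pow hmul hone hrep r⟩
  obtain ⟨u1, u2⟩ := hU l a d s hl hd (Im hB hmul hone H) hS
  have main : ∀ m : ℕ, up (m : ZMod (l ^ a)) ∈ der (Im hB hmul hone H) s →
      lo (m : ZMod (l ^ a)) ∈ der (Im hB hmul hone H) s → l ^ a ∣ m * e₁ := by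
    intro m hu hlo
    obtain ⟨τ, hτ, h⟩ := der_Im hmul hone H s hu
    obtain ⟨τ', hτ', h'⟩ := der_Im hmul hone H s hlo
    have k1 := Rep.pow hmul hone h e₁
    have k2 := Rep.pow hmul hone h' e₁
    rw [up_pow] at k1
    rw [lo_pow] at k2
    have c1 : ((e₁ : ZMod (l ^ a)) * (m : ZMod (l ^ a))) = (((m * e₁ : ℕ) : ℤ) : ZMod (l ^ a)) := by
      push_cast
      ring
    have o1 := ml_int hB.hP 1
    have o2 := ml_int hB.hQ 1
    simp only [Int.cast_one, one_smul] at o1 o2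
    refine line hl hB hy (m * e₁) (act (τ ^ e₁)) (act (τ' ^ e₁)) ?_ ?_ ?_ ?_ (hst τ hτ) (hst τ' hτ')
    · rw [k1.1]
      simp [up, o1]
    · rw [k1.2]
      simp only [up, Matrix.cons_val', Matrix.cons_val_zero,
        Matrix.cons_val_one, Matrix.of_apply, Matrix.cons_val_fin_one]
      rw [c1, ml_int, o2, add_comm]
    · rw [k2.1]
      simp only [lo, Matrix.cons_val', Matrix.cons_val_zero,
        Matrix.cons_val_one, Matrix.of_apply, Matrix.cons_val_fin_one]
      rw [c1, ml_int, o1]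
    · rw [k2.2]
      simp [lo, o2]
  refine ⟨?_, fun h => ?_⟩
  · have h1 := u1 1
    rw [mul_one] at h1
    exact main _ h1.1 h1.2
  · have h1 := u2 h 1
    have h2 := main 1 (by simpa using h1.1) (by simpa using h1.2)
    simpa using h2

end Pool.Agent.P8H12.ST
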