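import Pool.Agent.N495.TS.GenB
import Pool.Agent.P8H12.ST.Tw
import Pool.Agent.P8H12.ST.Rep

/-!
# Project ST: stable cyclic subgroups of elliptic curves over towers

The proof of `span2'` is after `Pool.Agent.N495.TS.span2` (helper495).
-/

set_option autoImplicit false

namespace Pool.Agent.P8H12.ST

open WeierstrassCurve NumberField
open Pool.Agent.Y673.Loc Pool.Agent.Y673.SL
open Pool.Agent.Q19.SU
open Pool.Agent.H901R3.MS Pool.Agent.W275.FM
open Pool.Agent.N495.TS

open scoped Classical in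
/-- the torsion of prime order is spanned by two elements -/
theorem span2' {K : Type} [Field K] [CharZero K] {A B : K} (hD : 4 * A ^ 3 + 27 * B ^ 2 ≠ 0)
    {q : ℕ} (hq : q.Prime) : ∃ P Q : EP A B, q • P = 0 ∧ q • Q = 0 ∧
      ∀ R : EP A B, q • R = 0 → ∃ m n : ℤ, R = m • P + n • Q := by
  haveI : CharZero (AlgebraicClosure K) :=
    charZero_of_injective_algebraMap (algebraMap K (AlgebraicClosure K)).injective
  obtain ⟨hfin, hcard⟩ := Mul.tor (AlgebraicClosure K) _ _ (Pool.Agent.Y673.FM.disc_ca hD) q hq.one_le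
  set e := eqv A B (AlgebraicClosure K) with he
  set S : Set (EP A B) := {P | q • P = 0} with hS
  have himg : e '' S = {P | q • P = 0} := by
    ext P
    constructor
    · rintro ⟨R, hR, rfl⟩
      show q • e R = 0
      rw [← map_nsmul, (show q • R = 0 from hR), map_zero]
    · intro hP
      refine ⟨e.symm P, ?_, AddEquiv.apply_symm_apply _ _⟩
      show q • e.symm P = 0
      rw [← map_nsmul, (show q • P = 0 from hP), map_zero]
  have hScard : q ^ 2 ≤ S.ncard := by
    rw [← Set.ncard_image_of_injective S e.injective, himg]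
    exact hcard
  have hSfin : S.Finite := by
    apply Set.Finite.of_finite_image _ e.injective.injOn
    rw [himg]
    exact hfin
  have h2 := hq.two_le
  obtain ⟨P, hP, hP0⟩ : ∃ P ∈ S, P ≠ 0 := by
    by_contra hcon
    push Not at hcon
    have h1 : S ⊆ {0} := fun P hP => hcon P hP
    have h3 := Set.ncard_le_ncard h1 (Set.finite_singleton _)
    rw [Set.ncard_singleton] at h3
    nlinarith
  obtain ⟨Q, hQ, hPQ⟩ : ∃ Q ∈ S, Q ∉ AddSubgroup.zmultiples P := by
    by_contra hcon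
    push Not at hcon
    have h1 : S ⊆ (AddSubgroup.zmultiples P : Set (EP A B)) := fun Q hQ => hcon Q hQ
    have hPo : addOrderOf P ∣ q := addOrderOf_dvd_of_nsmul_eq_zero hP
    have hPo2 : addOrderOf P ≤ q := Nat.le_of_dvd hq.pos hPo
    have hfinP : (AddSubgroup.zmultiples P : Set (EP A B)).Finite := by
      rw [AddSubgroup.coe_zmultiples]
      have hfo : IsOfFinAddOrder P := isOfFinAddOrder_iff_nsmul_eq_zero.2 ⟨q, hq.pos, hP⟩
      have := (finite_zmultiples (a := P)).2 hfo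
      exact this
    have h3 := Set.ncard_le_ncard h1 hfinP
    have h4 : (AddSubgroup.zmultiples P : Set (EP A B)).ncard = addOrderOf P := by
      rw [← Nat.card_coe_set_eq]
      exact Nat.card_zmultiples P
    rw [h4] at h3
    nlinarith
  obtain ⟨h6, -⟩ := basis hD hq hP hQ hP0 hPQ
  exact ⟨P, Q, hP, hQ, h6⟩

theorem lq_pow {k : Type} [Field k] [NumberField k] {A B : k} (h : LQ A B) {l : ℕ} (hl : l.Prime)
    (a : ℕ) : HasSLn A B (l ^ a) := by
  obtain ⟨p, hp, h1, h2⟩ := h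
  by_cases hpl : p = l
  · subst hpl
    exact h2 a
  · exact h1 _ (Nat.one_le_pow _ _ hl.pos) fun h3 =>
      hpl ((Nat.prime_dvd_prime_iff_eq hp hl).1 (hp.dvd_of_dvd_pow h3))

open scoped Classical in
/-- the action of powers, up to sign -/
theorem sgn {k K : Type} [Field k] [Field K] {A B : K} {A₀ B₀ : k} {φ : EP A B →+ EP A₀ B₀}
    {σ : AlgebraicClosure K ≃ₐ[K] AlgebraicClosure K}
    {τ : AlgebraicClosure k ≃ₐ[k] AlgebraicClosure k}
    (h : (∀ P, φ (act A B σ P) = act A₀ B₀ τ (φ P)) ∨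
      (∀ P, φ (act A B σ P) = - act A₀ B₀ τ (φ P))) (m : ℕ) :
    (∀ P, φ (act A B (σ ^ m) P) = act A₀ B₀ (τ ^ m) (φ P)) ∨
      (∀ P, φ (act A B (σ ^ m) P) = - act A₀ B₀ (τ ^ m) (φ P)) := by
  induction m with
  | zero =>
    left
    intro P
    rw [pow_zero, pow_zero, act_one, act_one]
  | succ m ih =>
    rcases h with h | h <;> rcases ih with ih | ih
    · left
      intro P
      rw [pow_succ, pow_succ, act_mul, act_mul, ih, h]
    · right
      intro P
      rw [pow_succ, pow_succ, act_mul, act_mul, ih, h]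
    · right
      intro P
      rw [pow_succ, pow_succ, act_mul, act_mul, ih, h, map_neg]
    · left
      intro P
      rw [pow_succ, pow_succ, act_mul, act_mul, ih, h, map_neg, neg_neg]

theorem tower_alg {k K : Type} [Field k] [Field K] [Algebra k K] {d s : ℕ} (h : Tower k K d s) :
    Algebra.IsAlgebraic k K ∧ 1 ≤ d := by
  obtain ⟨F, L, _, _, _, _, _, _, _, _, h1, h2, h3, -⟩ := h
  have h4 : Algebra.IsAlgebraic k F := Algebra.IsAlgebraic.of_finite k F
  have h5 : Algebra.IsAlgebraic k L := Algebra.IsAlgebraic.trans k F L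
  refine ⟨Algebra.IsAlgebraic.of_injective (IsScalarTower.toAlgHom k K L)
    (IsScalarTower.toAlgHom k K L).injective, ?_⟩
  have h6 : 0 < Module.finrank k F := Module.finrank_pos
  omega

open scoped Classical in
/-- **the order of a stable cyclic subgroup of an elliptic curve over a tower** -/
theorem ord (hU : S_UNI) (hR : S_RED) {k : Type} [Field k] [NumberField k] {K : Type} [Field K]
    [CharZero K] [Algebra k K] {d s : ℕ} (hK : Tower k K d s) {A B : K}
    (hD : 4 * A ^ 3 + 27 * B ^ 2 ≠ 0) {j : k} (hj : LJk j) (hjv : jv A B = algebraMap k K j)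
    {e₁ : ℕ} {c : EP A B} (hc : IsOfFinAddOrder c)
    (hst : ∀ σ : AlgebraicClosure K ≃ₐ[K] AlgebraicClosure K,
      act A B (σ ^ e₁) c ∈ AddSubgroup.zmultiples c) :
    addOrderOf c ∣ mm d s * e₁ ∧
      ∀ l : ℕ, l.Prime → max d 3 < l → l ∣ addOrderOf c → l ∣ e₁ := by
  obtain ⟨hal, hd⟩ := tower_alg hK
  obtain ⟨j₀, θ, hθ, htw⟩ := tw_alg (k := k) K
  obtain ⟨H, hH, hHK⟩ := hR k K d s hK j₀
  have hj0 : algebraMap k K j ≠ 0 := by
    rw [Ne, map_eq_zero]
    exact hj.1
  have hj1 : algebraMap k K j ≠ 1728 := fun h => by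
    apply hj.2.1
    apply (algebraMap k K).injective
    rw [h, map_ofNat]
  obtain ⟨A₀, B₀, φ, ⟨hD0, hjv0⟩, hφ, hφ2⟩ : ∃ (A₀ B₀ : k) (φ : EP A B →+ EP A₀ B₀),
      (4 * A₀ ^ 3 + 27 * B₀ ^ 2 ≠ 0 ∧ jv A₀ B₀ = j) ∧
      Function.Injective φ ∧ ∀ σ, (∀ P, φ (act A B σ P) = act A₀ B₀ (θ σ) (φ P)) ∨
        (∀ P, φ (act A B σ P) = - act A₀ B₀ (θ σ) (φ P)) := by
    obtain ⟨r, hr0, hr1, hr2⟩ := Pool.Agent.Y673.SN.twist_of hD hjv hj0 hj1
    have hne : j - 1728 ≠ 0 := sub_ne_zero.2 hj.2.1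
    have hD0 : 4 * (-3 * j * (j - 1728)) ^ 3 + 27 * (-2 * j * (j - 1728) ^ 2) ^ 2 ≠ 0 := by
      have e : 4 * (-3 * j * (j - 1728)) ^ 3 + 27 * (-2 * j * (j - 1728) ^ 2) ^ 2 =
          -186624 * j ^ 2 * (j - 1728) ^ 3 := by ring
      rw [e]
      exact mul_ne_zero (mul_ne_zero (by norm_num) (pow_ne_zero 2 hj.1)) (pow_ne_zero 3 hne)
    have hjv0 : jv (-3 * j * (j - 1728)) (-2 * j * (j - 1728) ^ 2) = j := by
      unfold jv
      rw [div_eq_iff hD0]
      ring
    obtain ⟨φ, h1, h2⟩ := htw A B r (-3 * j * (j - 1728)) (-2 * j * (j - 1728) ^ 2)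
      hr0 (by
        rw [← hr1]
        simp only [map_mul, map_neg, map_sub, map_ofNat]) (by
        rw [← hr2]
        simp only [map_mul, map_neg, map_sub, map_pow, map_ofNat])
    exact ⟨_, _, φ, ⟨hD0, hjv0⟩, h1, h2⟩
  have hL : LQ A₀ B₀ := hj.2.2 _ _ hD0 hjv0
  have ho : addOrderOf (φ c) = addOrderOf c := addOrderOf_injective φ hφ c
  have hpos : 0 < addOrderOf c := hc.addOrderOf_pos
  -- prime powers
  have main : ∀ l a : ℕ, l.Prime → l ^ a ∣ addOrderOf c →
      l ^ a ∣ mm d s * e₁ ∧ (max d 3 < l → l ^ a ∣ e₁) := by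
    intro l a hl hla
    obtain ⟨m, hm⟩ := hla
    have hm0 : m ≠ 0 := by
      rintro rfl
      omega
    obtain ⟨P, Q, hB, hSL⟩ := lq_pow hL hl a
    refine key hU (fun τ => act A₀ B₀ τ) (fun σ τ v => act_mul A₀ B₀ σ τ v)
      (fun v => act_one A₀ B₀ v) hl hd hB hSL H hH e₁ (m • φ c) ?_ ?_
    · rw [addOrderOf_nsmul' _ hm0, ho, hm, Nat.gcd_mul_left_left,
        Nat.mul_div_cancel _ (Nat.pos_of_ne_zero hm0)]
    · intro τ hτ
      obtain ⟨σ, rfl⟩ := hθ τ (hHK τ hτ)
      obtain ⟨u, hu⟩ := AddSubgroup.mem_zmultiples_iff.1 (hst σ)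
      have h1 : act A₀ B₀ (θ σ ^ e₁) (φ c) ∈ AddSubgroup.zmultiples (φ c) := by
        rcases sgn (hφ2 σ) e₁ with h | h
        · refine AddSubgroup.mem_zmultiples_iff.2 ⟨u, ?_⟩
          rw [← h c, ← hu, map_zsmul]
        · refine AddSubgroup.mem_zmultiples_iff.2 ⟨-u, ?_⟩
          have h2 := h c
          rw [← hu, map_zsmul] at h2
          rw [neg_zsmul, h2, neg_neg]
      exact stab_smul' h1 m
  refine ⟨?_, ?_⟩
  · rw [Nat.dvd_iff_prime_pow_dvd_dvd]
    intro p a hp hpa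
    exact (main p a hp hpa).1
  · intro l hl hlt hld
    have := (main l 1 hl (by rw [pow_one]; exact hld)).2 hlt
    rwa [pow_one] at this

end Pool.Agent.P8H12.ST
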