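import Pool.Agent.N495.TS.TW

/-!
# Project DV: twists and base change over finite extensions, with indices

After `Pool.Agent.N495.TS.tw_exists` (helper495).
-/

set_option autoImplicit false

namespace Pool.Agent.P8H12.ST

open WeierstrassCurve Pool.Agent.H901R3.MS Pool.Agent.W275.FM
open Pool.Agent.Y673.Loc Pool.Agent.Y673.FM Pool.Agent.N495.TS

open scoped Classical in
/-- **curves over a finite extension with invariant in the base field** -/
theorem tw_hom {k : Type} [Field k] [CharZero k] (K : Type) [Field K] [CharZero K] [Algebra k K]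
    [FiniteDimensional k K] :
    ∃ (θ : (AlgebraicClosure K ≃ₐ[K] AlgebraicClosure K) →*
        (AlgebraicClosure k ≃ₐ[k] AlgebraicClosure k)),
      (∀ H : Subgroup (AlgebraicClosure K ≃ₐ[K] AlgebraicClosure K),
        (H.map θ).index = H.index * Module.finrank k K) ∧
      ∀ (A B r : K) (A₀ B₀ : k), r ≠ 0 → algebraMap k K A₀ = r ^ 2 * A →
        algebraMap k K B₀ = r ^ 3 * B →
        ∃ φ : EP A B →+ EP A₀ B₀, Function.Injective φ ∧
          ∀ σ, (∀ P, φ (act A B σ P) = act A₀ B₀ (θ σ) (φ P)) ∨
            (∀ P, φ (act A B σ P) = - act A₀ B₀ (θ σ) (φ P)) := by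
  set F := AlgebraicClosure K with hF
  have hcl : IsAlgClosure k F := ⟨inferInstance, Algebra.IsAlgebraic.trans k K F⟩
  have : CharZero F := charZero_of_injective_algebraMap (algebraMap K F).injective
  have : CharZero (AlgebraicClosure k) :=
    charZero_of_injective_algebraMap (algebraMap k (AlgebraicClosure k)).injective
  set ι : AlgebraicClosure k ≃ₐ[k] F := IsAlgClosure.equiv k (AlgebraicClosure k) F with hι
  let j : K →ₐ[k] AlgebraicClosure k :=
    (ι.symm : F →ₐ[k] AlgebraicClosure k).comp (IsScalarTower.toAlgHom k K F)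
  have hj : ∀ x : K, j x = ι.symm (algebraMap K F x) := fun x => rfl
  let θ : (F ≃ₐ[K] F) →* (AlgebraicClosure k ≃ₐ[k] AlgebraicClosure k) :=
    { toFun := fun σ => ι.trans ((σ.restrictScalars k).trans ι.symm)
      map_one' := by
        ext x
        show ι.symm (ι x) = x
        rw [AlgEquiv.symm_apply_apply]
      map_mul' := by
        intro σ τ
        ext x
        show ι.symm (σ (τ (ι x))) = ι.symm (σ (ι (ι.symm (τ (ι x)))))
        rw [AlgEquiv.apply_symm_apply] }
  have hθ0 : ∀ σ x, θ σ x = ι.symm (σ (ι x)) := fun σ x => rfl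
  refine ⟨θ, ?_, ?_⟩
  · intro H
    have hinj : Function.Injective θ := by
      intro σ τ h
      ext x
      have h1 := DFunLike.congr_fun h (ι.symm x)
      rw [hθ0, hθ0, AlgEquiv.apply_symm_apply] at h1
      exact ι.symm.injective h1
    rw [Subgroup.index_map_of_injective H hinj]
    congr 1
    have hr : θ.range = j.fieldRange.fixingSubgroup := by
      ext τ
      rw [IntermediateField.mem_fixingSubgroup_iff]
      constructor
      · rintro ⟨σ, rfl⟩ x ⟨y, rfl⟩
        show θ σ (j y) = j y
        rw [hj, hθ0, AlgEquiv.apply_symm_apply, AlgEquiv.commutes]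
      · intro hτ
        refine ⟨AlgEquiv.ofRingEquiv
          (f := ((ι.symm.trans (τ.trans ι) : F ≃ₐ[k] F) : F ≃+* F)) ?_, ?_⟩
        · intro x
          show ι (τ (ι.symm (algebraMap K F x))) = algebraMap K F x
          rw [← hj]
          have h1 : τ (j x) = j x := hτ (j x) ⟨x, rfl⟩
          rw [h1, hj, AlgEquiv.apply_symm_apply]
        · ext x
          show ι.symm (ι (τ (ι.symm (ι x)))) = τ x
          rw [AlgEquiv.symm_apply_apply, AlgEquiv.symm_apply_apply]
    rw [hr, ← IntermediateField.finrank_eq_fixingSubgroup_index]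
    exact (AlgEquiv.ofInjectiveField j).toLinearEquiv.finrank_eq.symm
  · intro A B r A₀ B₀ hr hA hB
    obtain ⟨s, hs⟩ := IsAlgClosed.exists_pow_nat_eq (ι.symm (algebraMap K F r)) (n := 2) (by norm_num)
    have hρ : ι.symm (algebraMap K F r) ≠ 0 := by
      rw [Ne, map_eq_zero, map_eq_zero]
      exact hr
    have hs0 : s ≠ 0 := by
      rintro rfl
      apply hρ
      rw [← hs]
      ring
    set u : AlgebraicClosure k := s⁻¹ with hu
    have hu0 : u ≠ 0 := inv_ne_zero hs0
    let φ₀ : F →+* AlgebraicClosure k := ((ι.symm : F ≃ₐ[k] AlgebraicClosure k) : F →+* AlgebraicClosure k)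
    have hφ₀ : ∀ x : F, φ₀ x = ι.symm x := fun x => rfl
    have hcaA : ca (AlgebraicClosure k) A₀ = s ^ 4 * φ₀ (ca F A) := by
      have h1 : ca (AlgebraicClosure k) A₀ = ι.symm (algebraMap K F (algebraMap k K A₀)) := by
        rw [← IsScalarTower.algebraMap_apply, AlgEquiv.commutes]
      rw [h1, hA, map_mul, map_mul, map_pow, map_pow, ← hs, hφ₀]
      ring
    have hcaB : ca (AlgebraicClosure k) B₀ = s ^ 6 * φ₀ (ca F B) := by
      have h1 : ca (AlgebraicClosure k) B₀ = ι.symm (algebraMap K F (algebraMap k K B₀)) := by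
        rw [← IsScalarTower.algebraMap_apply, AlgEquiv.commutes]
      rw [h1, hB, map_mul, map_mul, map_pow, map_pow, ← hs, hφ₀]
      ring
    have hA' : φ₀ (ca F A) = u ^ 4 * ca (AlgebraicClosure k) A₀ := by
      rw [hcaA, hu]
      field_simp
    have hB' : φ₀ (ca F B) = u ^ 6 * ca (AlgebraicClosure k) B₀ := by
      rw [hcaB, hu]
      field_simp
    let T := tw φ₀ u two_ne_zero hu0 hA' hB'
    refine ⟨((eqv A₀ B₀ (AlgebraicClosure k)).symm.toAddMonoidHom.comp T).comp
      (eqv A B F).toAddMonoidHom, ?_, ?_⟩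
    · intro P Q h
      apply (eqv A B F).injective
      apply tw_inj φ₀ u two_ne_zero hu0 hA' hB'
      exact (eqv A₀ B₀ (AlgebraicClosure k)).symm.injective h
    · intro σ
      have hθx : ∀ x : F, θ σ (ι.symm x) = ι.symm (σ x) := by
        intro x
        rw [hθ0, AlgEquiv.apply_symm_apply]
      have hθs : (θ σ s) ^ 2 = s ^ 2 := by
        rw [← map_pow, hs, hθx, AlgEquiv.commutes]
      have hcases : θ σ u = u ∨ θ σ u = -u := by
        rcases sq_eq_sq_iff_eq_or_eq_neg.1 hθs with h | h
        · left
          rw [hu, map_inv₀, h]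
        · right
          rw [hu, map_inv₀, h, inv_neg]
      have key : ∀ (P : EP A B), eqv A₀ B₀ (AlgebraicClosure k)
          (((eqv A₀ B₀ (AlgebraicClosure k)).symm.toAddMonoidHom.comp T).comp
            (eqv A B F).toAddMonoidHom (act A B σ P)) =
          T (mp A B (σ : F →ₐ[K] F) (eqv A B F P)) := by
        intro P
        show eqv A₀ B₀ (AlgebraicClosure k) ((eqv A₀ B₀ (AlgebraicClosure k)).symm
          (T (eqv A B F (act A B σ P)))) = _
        rw [AddEquiv.apply_symm_apply, act_eqv]
      have key2 : ∀ (P : EP A B), eqv A₀ B₀ (AlgebraicClosure k) (act A₀ B₀ (θ σ)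
          (((eqv A₀ B₀ (AlgebraicClosure k)).symm.toAddMonoidHom.comp T).comp
            (eqv A B F).toAddMonoidHom P)) =
          mp A₀ B₀ (θ σ : AlgebraicClosure k →ₐ[k] AlgebraicClosure k) (T (eqv A B F P)) := by
        intro P
        rw [act_eqv]
        congr 1
        show eqv A₀ B₀ (AlgebraicClosure k) ((eqv A₀ B₀ (AlgebraicClosure k)).symm
          (T (eqv A B F P))) = _
        rw [AddEquiv.apply_symm_apply]
      rcases hcases with h | h
      · left
        intro P
        apply (eqv A₀ B₀ (AlgebraicClosure k)).injective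
        rw [key, key2]
        rcases eqv A B F P with _ | ⟨x, y, hxy⟩
        · have e0 : (Affine.Point.zero : Pt (ca F A) (ca F B)) = 0 := rfl
          rw [e0, map_zero, map_zero, map_zero]
        · rw [mp_some]
          show tw φ₀ u two_ne_zero hu0 hA' hB' _ = mp A₀ B₀ _ (tw φ₀ u two_ne_zero hu0 hA' hB' _)
          rw [tw_some, tw_some, mp_some]
          apply pt_ext'
          · show ι.symm (σ x) / u ^ 2 = θ σ (ι.symm x / u ^ 2)
            rw [map_div₀, map_pow, h, hθx]
          · show ι.symm (σ y) / u ^ 3 = θ σ (ι.symm y / u ^ 3)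
            rw [map_div₀, map_pow, h, hθx]
      · right
        intro P
        apply (eqv A₀ B₀ (AlgebraicClosure k)).injective
        rw [map_neg, key, key2]
        rcases eqv A B F P with _ | ⟨x, y, hxy⟩
        · have e0 : (Affine.Point.zero : Pt (ca F A) (ca F B)) = 0 := rfl
          rw [e0, map_zero, map_zero, map_zero, neg_zero]
        · rw [mp_some]
          show tw φ₀ u two_ne_zero hu0 hA' hB' _ = - mp A₀ B₀ _ (tw φ₀ u two_ne_zero hu0 hA' hB' _)
          rw [tw_some, tw_some, mp_some, Affine.Point.neg_some]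
          apply pt_ext'
          · show ι.symm (σ x) / u ^ 2 = θ σ (ι.symm x / u ^ 2)
            rw [map_div₀, map_pow, h, hθx]
            ring
          · have e1 : ∀ (a b x y : AlgebraicClosure k), (CV a b).toAffine.negY x y = -y := by
              intro a b x y
              simp [Affine.negY, CV]
            rw [e1]
            show ι.symm (σ y) / u ^ 3 = -θ σ (ι.symm y / u ^ 3)
            rw [map_div₀, map_pow, h, hθx]
            have : (-u) ^ 3 = -u ^ 3 := by ring
            rw [this, div_neg, neg_neg]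

end Pool.Agent.P8H12.ST
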