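import Pool.Agent.P8H12.ST.Ord
import Pool.Agent.P8H12.ST.TwH
import Pool.Agent.P8H12.SO.Stm2

/-!
# Project DV: stable cyclic subgroups of elliptic curves over finite extensions
-/

set_option autoImplicit false

namespace Pool.Agent.P8H12.ST

open WeierstrassCurve NumberField
open Pool.Agent.Y673.Loc Pool.Agent.Y673.SL
open Pool.Agent.Q19.SU
open Pool.Agent.H901R3.MS Pool.Agent.W275.FM
open Pool.Agent.N495.TS

/-- the order of a cyclic subgroup which is stable under a subgroup of finite index -/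
theorem lev {G V : Type} [Group G] [AddCommGroup V] (act : G → V →+ V)
    (hmul : ∀ (σ τ : G) (v : V), act (σ * τ) v = act σ (act τ v)) (hone : ∀ v : V, act 1 v = v)
    {n : ℕ} (hn : 1 ≤ n) {P Q : V} (hB : Gen.Bas n P Q)
    (hSL : ∀ a b c d : ℤ, (n : ℤ) ∣ a * d - b * c - 1 →
      ∃ σ : G, act σ P = a • P + c • Q ∧ act σ Q = b • P + d • Q)
    (H : Subgroup G) (hH : H.index ≠ 0) {y : V} (hy : addOrderOf y = n)
    (hst : ∀ τ ∈ H, act τ y ∈ AddSubgroup.zmultiples y) : n ≤ H.index := by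
  have hny : (n : ℤ) • y = 0 := by
    rw [natCast_zsmul, ← hy, addOrderOf_nsmul_eq_zero]
  obtain ⟨x, z, hxz⟩ := hB.span y hny
  -- `x` and `z` are coprime modulo `n`
  have hg : ∃ s t : ℤ, (n : ℤ) ∣ x * s + z * t - 1 := by
    obtain ⟨D, hD⟩ : ∃ D : ℕ, D = Int.gcd (Int.gcd x z) n := ⟨_, rfl⟩
    have hDn : (D : ℤ) ∣ n := by rw [hD]; exact Int.gcd_dvd_right _ _
    have hDxz : (D : ℤ) ∣ Int.gcd x z := by rw [hD]; exact Int.gcd_dvd_left _ _
    have hDx : (D : ℤ) ∣ x := hDxz.trans (Int.gcd_dvd_left _ _)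
    have hDz : (D : ℤ) ∣ z := hDxz.trans (Int.gcd_dvd_right _ _)
    have hD1 : D = 1 := by
      obtain ⟨m, hm⟩ := hDn
      obtain ⟨x', hx'⟩ := hDx
      obtain ⟨z', hz'⟩ := hDz
      have h1 : m • y = 0 := by
        rw [hxz, hx', hz', smul_add, ← mul_smul, ← mul_smul,
          show m * (↑D * x') = x' * (n : ℤ) by rw [hm]; ring,
          show m * (↑D * z') = z' * (n : ℤ) by rw [hm]; ring, mul_smul, mul_smul, hB.hP, hB.hQ,
          smul_zero, smul_zero, add_zero]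
      have h2 : (n : ℤ) ∣ m := by
        rw [← hy]
        exact addOrderOf_dvd_iff_zsmul_eq_zero.2 h1
      obtain ⟨u, hu⟩ := h2
      have hn0 : (n : ℤ) ≠ 0 := by
        have : (1 : ℤ) ≤ n := by exact_mod_cast hn
        omega
      have h3 : (n : ℤ) * (D * u) = n * 1 := by
        rw [mul_one]
        conv_rhs => rw [hm, hu]
        ring
      have h4 := mul_left_cancel₀ hn0 h3
      have h5 : (D : ℤ) ∣ 1 := ⟨u, h4.symm⟩
      have h6 : D ∣ 1 := by exact_mod_cast h5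
      exact Nat.dvd_one.1 h6
    have e1 := Int.gcd_eq_gcd_ab x z
    have e2 := Int.gcd_eq_gcd_ab (Int.gcd x z : ℤ) n
    rw [← hD, hD1] at e2
    refine ⟨Int.gcdA x z * Int.gcdA (Int.gcd x z : ℤ) n,
      Int.gcdB x z * Int.gcdA (Int.gcd x z : ℤ) n, -Int.gcdB (Int.gcd x z : ℤ) n, ?_⟩
    push_cast at e2
    have e3 : x * (Int.gcdA x z * Int.gcdA (Int.gcd x z : ℤ) n) +
        z * (Int.gcdB x z * Int.gcdA (Int.gcd x z : ℤ) n) =
        (Int.gcd x z : ℤ) * Int.gcdA (Int.gcd x z : ℤ) n := by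
      rw [e1]
      ring
    rw [e3]
    linarith
  obtain ⟨s, t, hst1⟩ := hg
  obtain ⟨σ₀, hσP, hσQ⟩ := hSL x (-t) z s (by
    have : x * s - -t * z - 1 = x * s + z * t - 1 := by ring
    rw [this]
    exact hst1)
  rw [← hxz] at hσP
  -- the elements `τ b`
  have hτ : ∀ b : ℤ, ∃ τ : G, act τ y = y + b • act σ₀ Q := by
    intro b
    obtain ⟨u, hu, -⟩ := hSL 1 0 b 1 (by simp)
    refine ⟨σ₀ * u * σ₀⁻¹, ?_⟩
    have h1 : act σ₀⁻¹ y = P := by
      rw [← hσP, ← hmul, inv_mul_cancel, hone]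
    rw [hmul, hmul, h1, hu, one_smul, map_add, map_zsmul, hσP]
  choose τ hτ using hτ
  have hinj : Function.Injective (fun b : Fin n => ((τ (b : ℕ) : G) : G ⧸ H)) := by
    intro b c hbc
    have h1 : (τ (b : ℕ))⁻¹ * τ (c : ℕ) ∈ H := QuotientGroup.eq.1 hbc
    obtain ⟨m, hm⟩ := AddSubgroup.mem_zmultiples_iff.1 (hst _ h1)
    have h2 : act (τ (b : ℕ)) (m • y) = act (τ (c : ℕ)) y := by
      rw [hm, ← hmul, mul_inv_cancel_left]
    rw [map_zsmul, hτ, hτ, smul_add, ← mul_smul] at h2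
    have h3 : act σ₀ ((m - 1) • P + (m * (b : ℕ) - (c : ℕ)) • Q) = 0 := by
      rw [map_add, map_zsmul, map_zsmul, hσP, sub_smul, sub_smul, one_smul]
      have h4 : m • y + (m * ((b : ℕ) : ℤ)) • act σ₀ Q = y + ((c : ℕ) : ℤ) • act σ₀ Q := h2
      have h5 : m • y - y + ((m * ((b : ℕ) : ℤ)) • act σ₀ Q - ((c : ℕ) : ℤ) • act σ₀ Q) =
          (m • y + (m * ((b : ℕ) : ℤ)) • act σ₀ Q) - (y + ((c : ℕ) : ℤ) • act σ₀ Q) := by abel
      rw [h5, h4, sub_self]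
    have h6 : (m - 1) • P + (m * (b : ℕ) - (c : ℕ)) • Q = 0 := by
      have h7 := congrArg (act σ₀⁻¹) h3
      rw [← hmul, inv_mul_cancel, hone, map_zero] at h7
      exact h7
    obtain ⟨h8, h9⟩ := hB.ind _ _ h6
    have h10 : (n : ℤ) ∣ ((b : ℕ) : ℤ) - ((c : ℕ) : ℤ) := by
      have : ((b : ℕ) : ℤ) - ((c : ℕ) : ℤ) =
          (m * ((b : ℕ) : ℤ) - ((c : ℕ) : ℤ)) - (m - 1) * ((b : ℕ) : ℤ) := by ring
      rw [this]
      exact dvd_sub h9 (h8.mul_right _)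
    have h11 : ((b : ℕ) : ℤ) - ((c : ℕ) : ℤ) = 0 := by
      apply Int.eq_zero_of_abs_lt_dvd h10
      rw [abs_lt]
      have := b.2
      have := c.2
      constructor <;> omega
    apply Fin.ext
    omega
  have hfin : Finite (G ⧸ H) := Nat.finite_of_card_ne_zero hH
  have := Nat.card_le_card_of_injective _ hinj
  rwa [Nat.card_eq_fintype_card, Fintype.card_fin] at this

open scoped Classical in
/-- **the order of a stable cyclic subgroup of an elliptic curve over a finite extension** -/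
theorem ordH (hO : S_ORB) {k : Type} [Field k] [NumberField k] {K : Type} [Field K]
    [CharZero K] [Algebra k K] [FiniteDimensional k K] {A B : K}
    (hD : 4 * A ^ 3 + 27 * B ^ 2 ≠ 0) {j : k} (hj : LJk j) (hjv : jv A B = algebraMap k K j)
    (N : Subgroup (AlgebraicClosure K ≃ₐ[K] AlgebraicClosure K)) (hN : N.index ≠ 0)
    {y : EP A B} (hy : IsOfFinAddOrder y)
    (hst : ∀ σ ∈ N, act A B σ y ∈ AddSubgroup.zmultiples y) :
    (∀ l a : ℕ, l.Prime → 1 ≤ a → l ^ a ∣ addOrderOf y →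
      l ^ (a - 1) * (l + 1) ∣ N.index * Module.finrank k K) ∧
    addOrderOf y ≤ (N.index * Module.finrank k K) ^ 2 ∧
    ((∀ σ ∈ N, act A B σ y = y) → ∀ l a : ℕ, l.Prime → 1 ≤ a → l ^ a ∣ addOrderOf y →
      l ^ (2 * (a - 1)) * (l ^ 2 - 1) ∣ 2 * (N.index * Module.finrank k K)) := by
  obtain ⟨θ, hθ, htw⟩ := tw_hom (k := k) K
  have hj0 : algebraMap k K j ≠ 0 := by
    rw [Ne, map_eq_zero]
    exact hj.1
  have hj1 : algebraMap k K j ≠ 1728 := fun h => by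
    apply hj.2.1
    apply (algebraMap k K).injective
    rw [h, map_ofNat]
  obtain ⟨A₀, B₀, φ, ⟨hD0, hjv0⟩, hφ, hφ2⟩ : ∃ (A₀ B₀ : k) (φ : EP A B →+ EP A₀ B₀),
      (4 * A₀ ^ 3 + 27 * B₀ ^ 2 ≠ 0 ∧ jv A₀ B₀ = j) ∧
      Function.Injective φ ∧ ∀ σ, (∀ P, φ (act A B σ P) = act A₀ B₀ (θ σ) (φ P)) ∨
        (∀ P, φ (act A B σ P) = - act A₀ B₀ (θ σ) (φ P)) := by
    obtain ⟨r, hr0, hr1, hr2⟩ := Pool.Agent.Y673.SN.twist_of hD hjv hj0 hj1
    have hne : j - 1728 ≠ 0 := sub_ne_zero.2 hj.2.1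
    have hD0 : 4 * (-3 * j * (j - 1728)) ^ 3 + 27 * (-2 * j * (j - 1728) ^ 2) ^ 2 ≠ 0 := by
      have e : 4 * (-3 * j * (j - 1728)) ^ 3 + 27 * (-2 * j * (j - 1728) ^ 2) ^ 2 =
          -186624 * j ^ 2 * (j - 1728) ^ 3 := by ring
      rw [e]
      exact mul_ne_zero (mul_ne_zero (by norm_num) (pow_ne_zero 2 hj.1)) (pow_ne_zero 3 hne)
    have hjv0 : jv (-3 * j * (j - 1728)) (-2 * j * (j - 1728) ^ 2) = j := by
      unfold jv
      rw [div_eq_iff hD0]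
      ring
    obtain ⟨φ, h1, h2⟩ := htw A B r (-3 * j * (j - 1728)) (-2 * j * (j - 1728) ^ 2)
      hr0 (by
        rw [← hr1]
        simp only [map_mul, map_neg, map_sub, map_ofNat]) (by
        rw [← hr2]
        simp only [map_mul, map_neg, map_sub, map_pow, map_ofNat])
    exact ⟨_, _, φ, ⟨hD0, hjv0⟩, h1, h2⟩
  have hL : LQ A₀ B₀ := hj.2.2 _ _ hD0 hjv0
  have ho : addOrderOf (φ y) = addOrderOf y := addOrderOf_injective φ hφ y
  have hpos : 0 < addOrderOf y := hy.addOrderOf_pos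
  set H : Subgroup (AlgebraicClosure k ≃ₐ[k] AlgebraicClosure k) := N.map θ with hHd
  have hidx : H.index = N.index * Module.finrank k K := hθ N
  have hfr : Module.finrank k K ≠ 0 := (Module.finrank_pos (R := k) (M := K)).ne'
  have hH0 : H.index ≠ 0 := by
    rw [hidx]
    exact Nat.mul_ne_zero hN hfr
  have hHst : ∀ τ ∈ H, act A₀ B₀ τ (φ y) ∈ AddSubgroup.zmultiples (φ y) := by
    rintro τ ⟨σ, hσ, rfl⟩
    obtain ⟨u, hu⟩ := AddSubgroup.mem_zmultiples_iff.1 (hst σ hσ)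
    rcases hφ2 σ with h | h
    · refine AddSubgroup.mem_zmultiples_iff.2 ⟨u, ?_⟩
      rw [← h y, ← hu, map_zsmul]
    · refine AddSubgroup.mem_zmultiples_iff.2 ⟨-u, ?_⟩
      have h2 := h y
      rw [← hu, map_zsmul] at h2
      rw [neg_zsmul, h2, neg_neg]
  have hmul := fun σ τ v => act_mul A₀ B₀ σ τ v
  have hone := fun v => act_one A₀ B₀ v
  have hordm : ∀ q m : ℕ, addOrderOf y = q * m → q ≠ 0 → m ≠ 0 → addOrderOf (m • φ y) = q := by
    intro q m hqm hq0 hm0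
    rw [addOrderOf_nsmul' _ hm0, ho, hqm, Nat.gcd_mul_left_left,
      Nat.mul_div_cancel _ (Nat.pos_of_ne_zero hm0)]
  have main : ∀ l a : ℕ, l.Prime → 1 ≤ a → l ^ a ∣ addOrderOf y → ∃ z : EP A₀ B₀,
      (l ^ (a - 1) * (l + 1) ∣ H.index) ∧ ((∀ τ ∈ H, act A₀ B₀ τ z = z ∨ act A₀ B₀ τ z = -z) →
        l ^ (2 * (a - 1)) * (l ^ 2 - 1) ∣ 2 * H.index) ∧ ∃ m : ℕ, z = m • φ y := by
    intro l a hl ha hla
    obtain ⟨m, hm⟩ := hla
    have hm0 : m ≠ 0 := by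
      rintro rfl
      omega
    obtain ⟨P, Q, hB, hSL⟩ := lq_pow hL hl a
    obtain ⟨h1, h2⟩ := hO _ (EP A₀ B₀) (fun τ => act A₀ B₀ τ) hmul hone l a hl ha P Q
      hB.hP hB.hQ hB.span hB.ind hSL H (m • φ y)
      (hordm _ m hm (pow_ne_zero _ hl.ne_zero) hm0)
    exact ⟨m • φ y, h1 (fun τ hτ => stab_smul' (hHst τ hτ) m), h2, m, rfl⟩
  refine ⟨?_, ?_, ?_⟩
  · intro l a hl ha hla
    obtain ⟨z, h1, -, -⟩ := main l a hl ha hla
    rw [← hidx]
    exact h1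
  · obtain ⟨p, hp, h1, h2⟩ := hL
    obtain ⟨r, m, hm, hk⟩ := Nat.exists_eq_pow_mul_and_not_dvd hpos.ne' p hp.ne_one
    have hm0 : m ≠ 0 := by
      rintro rfl
      exact hm (dvd_zero _)
    have hpk : p ^ r ≠ 0 := pow_ne_zero _ hp.ne_zero
    have e1 : m ≤ H.index := by
      obtain ⟨P, Q, hB, hSL⟩ := h1 m (Nat.pos_of_ne_zero hm0) hm
      refine lev (fun τ => act A₀ B₀ τ) hmul hone (Nat.pos_of_ne_zero hm0) hB hSL H hH0
        (y := (p ^ r) • φ y) (hordm _ _ (by rw [hk, mul_comm]) hm0 hpk)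
        (fun τ hτ => stab_smul' (hHst τ hτ) _)
    have e2 : p ^ r ≤ H.index := by
      obtain ⟨P, Q, hB, hSL⟩ := h2 r
      exact lev (fun τ => act A₀ B₀ τ) hmul hone (Nat.pos_of_ne_zero hpk) hB hSL H hH0
        (y := m • φ y) (hordm _ _ hk hpk hm0) (fun τ hτ => stab_smul' (hHst τ hτ) _)
    rw [← hidx, hk, pow_two]
    exact Nat.mul_le_mul e2 e1
  · intro hfx l a hl ha hla
    obtain ⟨z, -, h2, m, hz⟩ := main l a hl ha hla
    rw [← hidx]
    refine h2 ?_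
    rintro τ ⟨σ, hσ, rfl⟩
    rw [hz]
    rcases hφ2 σ with h | h
    · left
      rw [map_nsmul, ← h y, hfx σ hσ]
    · right
      have h3 := h y
      rw [hfx σ hσ] at h3
      have h4 : act A₀ B₀ (θ σ) (φ y) = - φ y := (neg_eq_iff_eq_neg.1 h3.symm)
      rw [map_nsmul, h4, neg_nsmul]

end Pool.Agent.P8H12.ST
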