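import Pool.Agent.P8H12.ST.Twi
import Pool.Agent.N495.TS.StmS

/-!
# Project ST: the size of a torsion group
-/

set_option autoImplicit false

namespace Pool.Agent.P8H12.ST

open Pool.Agent.N495.TS

theorem siz (hS : S_SIZE) {r : ℕ} {n : Fin r → ℕ} {V : Fin r → Type} [∀ i, AddCommGroup (V i)]
    (hsp : ∀ i, ∀ q : ℕ, q.Prime → ∃ P Q : V i, q • P = 0 ∧ q • Q = 0 ∧
      ∀ R : V i, q • R = 0 → ∃ m n : ℤ, R = m • P + n • Q)
    (Γ : AddSubgroup (∀ i, Fin (n i) → V i)) (hfin : (Γ : Set (∀ i, Fin (n i) → V i)).Finite)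
    (T : AddSubgroup ((∀ i, Fin (n i) → V i) ⧸ Γ)) (B : ℕ)
    (hT : ∀ t ∈ T, IsOfFinAddOrder t ∧ addOrderOf t ≤ B) :
    Finite T ∧ Nat.card T ≤ B ^ (2 * ∑ i, n i) := by
  classical
  set g := ∑ i, n i with hg
  let Γ' : AddSubgroup (∀ a : Fin g, V (ty n a)) := Γ.map (flat n V)
  have hfin' : (Γ' : Set (∀ a : Fin g, V (ty n a))).Finite := by
    rw [AddSubgroup.coe_map]
    exact hfin.image _
  let f : ((∀ i, Fin (n i) → V i) ⧸ Γ) →+ ((∀ a : Fin g, V (ty n a)) ⧸ Γ') :=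
    QuotientAddGroup.map Γ Γ' (flat n V) fun x hx => ⟨x, hx, rfl⟩
  have hf : Function.Injective f := by
    rw [injective_iff_map_eq_zero]
    intro t
    obtain ⟨x, rfl⟩ := QuotientAddGroup.mk_surjective t
    intro h
    have h1 : ((flat n V x : ∀ a : Fin g, V (ty n a)) : (∀ a : Fin g, V (ty n a)) ⧸ Γ') = 0 := h
    rw [QuotientAddGroup.eq_zero_iff] at h1 ⊢
    obtain ⟨y, hy, h2⟩ := h1
    rw [← flat_inj h2]
    exact hy
  obtain ⟨k1, k2⟩ := hS g (fun a => V (ty n a)) (fun a => hsp (ty n a)) Γ' hfin' (T.map f) B (by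
    rintro _ ⟨t, ht, rfl⟩
    obtain ⟨h1, h2⟩ := hT t ht
    have h3 : addOrderOf (f t) = addOrderOf t := addOrderOf_injective f hf t
    refine ⟨?_, by rw [h3]; exact h2⟩
    rw [← addOrderOf_pos_iff, h3]
    exact h1.addOrderOf_pos)
  let e : T ≃ T.map f := (T.equivMapOfInjective f hf).toEquiv
  exact ⟨Finite.of_equiv _ e.symm, by rw [Nat.card_congr e]; exact k2⟩

end Pool.Agent.P8H12.ST
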