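import Pool.Agent.P8H12.SO.Stm
import Pool.Agent.N495.TS.StmM

/-!
# Project ST: twisted products of groups with operators
-/

set_option autoImplicit false

namespace Pool.Agent.P8H12.ST

open Pool.Agent.N495.TS

section
variable {G : Type} [Group G] {r : ℕ} {n : Fin r → ℕ} {V : Fin r → Type} [∀ i, AddCommGroup (V i)]

/-- the action on the twisted product -/
def tws (act : ∀ i, G → V i →+ V i) (ρ : ∀ i, G →* Matrix.GeneralLinearGroup (Fin (n i)) ℤ) (σ : G)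
    (x : ∀ i, Fin (n i) → V i) : ∀ i, Fin (n i) → V i :=
  fun i a => ∑ b, ((ρ i σ : Matrix.GeneralLinearGroup (Fin (n i)) ℤ) :
    Matrix (Fin (n i)) (Fin (n i)) ℤ) a b • act i σ (x i b)

theorem tws_one {act : ∀ i, G → V i →+ V i}
    {ρ : ∀ i, G →* Matrix.GeneralLinearGroup (Fin (n i)) ℤ} {σ : G} (h : ∀ i, ρ i σ = 1)
    (x : ∀ i, Fin (n i) → V i) (i : Fin r) (a : Fin (n i)) :
    tws act ρ σ x i a = act i σ (x i a) := by
  unfold tws
  rw [h i]
  rw [Finset.sum_eq_single a]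
  · simp
  · intro b _ hb
    simp [Matrix.one_apply_ne (Ne.symm hb)]
  · simp

/-- the index of the group of a factor -/
def ty (n : Fin r → ℕ) (a : Fin (∑ i, n i)) : Fin r := (finSigmaFinEquiv.symm a).1

/-- the place within the block -/
def pl (n : Fin r → ℕ) (a : Fin (∑ i, n i)) : Fin (n (ty n a)) := (finSigmaFinEquiv.symm a).2

/-- the product, with one index -/
def flat (n : Fin r → ℕ) (V : Fin r → Type) [∀ i, AddCommGroup (V i)] :
    (∀ i, Fin (n i) → V i) →+ (∀ a : Fin (∑ i, n i), V (ty n a)) where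
  toFun x := fun a => x (ty n a) (pl n a)
  map_zero' := rfl
  map_add' _ _ := rfl

theorem flat_inj : Function.Injective (flat n V) := by
  intro x y h
  funext i b
  have h1 := congrFun h (finSigmaFinEquiv ⟨i, b⟩)
  have h2 : ∀ p : Σ i : Fin r, Fin (n i), finSigmaFinEquiv.symm (finSigmaFinEquiv ⟨i, b⟩) = p →
      x p.1 p.2 = y p.1 p.2 := by
    rintro p rfl
    exact h1
  exact h2 ⟨i, b⟩ (Equiv.symm_apply_apply _ _)

/-- **torsion of quotients of twisted products** -/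
theorem twi (hT : S_TORSM) (hF : S_FIN) (act : ∀ i, G → V i →+ V i)
    (hsp : ∀ i, ∀ q : ℕ, q.Prime → ∃ P Q : V i, q • P = 0 ∧ q • Q = 0 ∧
      ∀ R : V i, q • R = 0 → ∃ m n : ℤ, R = m • P + n • Q)
    (ρ : ∀ i, G →* Matrix.GeneralLinearGroup (Fin (n i)) ℤ)
    (hρ : ∀ i σ, ∃ t : ℕ, 0 < t ∧ ρ i σ ^ t = 1)
    (Γ : AddSubgroup (∀ i, Fin (n i) → V i)) (hfin : (Γ : Set (∀ i, Fin (n i) → V i)).Finite)
    (hst : ∀ σ : G, ∀ x ∈ Γ, tws act ρ σ x ∈ Γ) (x : ∀ i, Fin (n i) → V i)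
    (hx : ∀ σ : G, tws act ρ σ x - x ∈ Γ)
    (hf : IsOfFinAddOrder (x : (∀ i, Fin (n i) → V i) ⧸ Γ)) :
    ∃ c w : ∀ a : Fin (∑ i, n i), V (ty n a),
      (∀ a, IsOfFinAddOrder (c a) ∧ IsOfFinAddOrder (w a) ∧
        (∀ σ : G, act (ty n a) (σ ^ ee (∑ i, n i)) (c a) ∈ AddSubgroup.zmultiples (c a)) ∧
        (∀ σ : G, act (ty n a) (σ ^ ee (∑ i, n i)) (w a) = w a)) ∧
      addOrderOf (x : (∀ i, Fin (n i) → V i) ⧸ Γ) ∣ ∏ a, (addOrderOf (c a) * addOrderOf (w a)) := by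
  classical
  set g := ∑ i, n i with hg
  let N : Subgroup G := ⨅ i, (ρ i).ker
  have hN : ∀ σ : G, σ ∈ N ↔ ∀ i, ρ i σ = 1 := by
    intro σ
    simp only [N, Subgroup.mem_iInf, MonoidHom.mem_ker]
  have hpow : ∀ σ : G, σ ^ ee g ∈ N := by
    intro σ
    rw [hN]
    intro i
    obtain ⟨t, ht, h1⟩ := hρ i σ
    have h2 : ((ρ i σ : Matrix.GeneralLinearGroup (Fin (n i)) ℤ) :
        Matrix (Fin (n i)) (Fin (n i)) ℤ) ^ t = 1 := by
      have := congrArg (fun M : Matrix.GeneralLinearGroup (Fin (n i)) ℤ =>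
        (M : Matrix (Fin (n i)) (Fin (n i)) ℤ)) h1
      simpa using this
    have h3 := hF g (n i) (Finset.single_le_sum (f := n) (fun _ _ => Nat.zero_le _)
      (Finset.mem_univ i)) _ t ht h2
    rw [map_pow]
    apply Units.ext
    push_cast
    exact h3
  let Γ' : AddSubgroup (∀ a : Fin g, V (ty n a)) := Γ.map (flat n V)
  have hfin' : (Γ' : Set (∀ a : Fin g, V (ty n a))).Finite := by
    rw [AddSubgroup.coe_map]
    exact hfin.image _
  have hact : ∀ (σ : N) (y : ∀ i, Fin (n i) → V i),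
      (fun a => act (ty n a) (σ : G) (flat n V y a)) = flat n V (tws act ρ (σ : G) y) := by
    intro σ y
    funext a
    show _ = tws act ρ (σ : G) y (ty n a) (pl n a)
    rw [tws_one ((hN _).1 σ.2)]
    rfl
  have hord : ∀ m : ℕ, m • (x : (∀ i, Fin (n i) → V i) ⧸ Γ) = 0 ↔
      m • ((flat n V x : ∀ a : Fin g, V (ty n a)) : (∀ a : Fin g, V (ty n a)) ⧸ Γ') = 0 := by
    intro m
    rw [← QuotientAddGroup.mk_nsmul, ← QuotientAddGroup.mk_nsmul, QuotientAddGroup.eq_zero_iff,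
      QuotientAddGroup.eq_zero_iff, ← map_nsmul]
    constructor
    · intro h
      exact ⟨_, h, rfl⟩
    · rintro ⟨y, hy, h⟩
      rw [← flat_inj h]
      exact hy
  have hoo : addOrderOf (x : (∀ i, Fin (n i) → V i) ⧸ Γ) =
      addOrderOf ((flat n V x : ∀ a : Fin g, V (ty n a)) : (∀ a : Fin g, V (ty n a)) ⧸ Γ') :=
    addOrderOf_eq_addOrderOf_iff.2 hord
  have hf' : IsOfFinAddOrder ((flat n V x : ∀ a : Fin g, V (ty n a)) :
      (∀ a : Fin g, V (ty n a)) ⧸ Γ') := by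
    rw [← addOrderOf_pos_iff, ← hoo]
    exact hf.addOrderOf_pos
  obtain ⟨c, w, h1, h2⟩ := hT N g (fun a => V (ty n a)) (fun a σ => act (ty n a) (σ : G))
    (fun a => hsp (ty n a)) Γ' hfin' (by
      rintro σ y ⟨z, hz, rfl⟩
      rw [hact σ z]
      exact ⟨_, hst _ z hz, rfl⟩) (flat n V x) (by
      intro σ
      refine ⟨_, hx (σ : G), ?_⟩
      rw [map_sub, ← hact σ x]
      rfl) hf'
  refine ⟨c, w, fun a => ⟨(h1 a).1, (h1 a).2.1, fun σ => (h1 a).2.2.1 ⟨_, hpow σ⟩,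
    fun σ => (h1 a).2.2.2 ⟨_, hpow σ⟩⟩, ?_⟩
  rw [hoo]
  exact h2

end

end Pool.Agent.P8H12.ST
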