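import Pool.Agent.P8H12.ST.Twi

/-!
# Project DV: twisted products of groups with operators, the kernel of the twist
-/

set_option autoImplicit false

namespace Pool.Agent.P8H12.ST

open Pool.Agent.N495.TS

section
variable {G : Type} [Group G] {r : ℕ} {n : Fin r → ℕ} {V : Fin r → Type} [∀ i, AddCommGroup (V i)]

/-- **torsion of quotients of twisted products** -/
theorem twi2 (hT : S_TORSM) (act : ∀ i, G → V i →+ V i)
    (hsp : ∀ i, ∀ q : ℕ, q.Prime → ∃ P Q : V i, q • P = 0 ∧ q • Q = 0 ∧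
      ∀ R : V i, q • R = 0 → ∃ m n : ℤ, R = m • P + n • Q)
    (ρ : ∀ i, G →* Matrix.GeneralLinearGroup (Fin (n i)) ℤ)
    (Γ : AddSubgroup (∀ i, Fin (n i) → V i)) (hfin : (Γ : Set (∀ i, Fin (n i) → V i)).Finite)
    (hst : ∀ σ : G, ∀ x ∈ Γ, tws act ρ σ x ∈ Γ) (x : ∀ i, Fin (n i) → V i)
    (hx : ∀ σ : G, tws act ρ σ x - x ∈ Γ)
    (hf : IsOfFinAddOrder (x : (∀ i, Fin (n i) → V i) ⧸ Γ)) :
    ∃ c w : ∀ a : Fin (∑ i, n i), V (ty n a),
      (∀ a, IsOfFinAddOrder (c a) ∧ IsOfFinAddOrder (w a) ∧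
        (∀ σ ∈ ⨅ i, (ρ i).ker, act (ty n a) σ (c a) ∈ AddSubgroup.zmultiples (c a)) ∧
        (∀ σ ∈ ⨅ i, (ρ i).ker, act (ty n a) σ (w a) = w a)) ∧
      addOrderOf (x : (∀ i, Fin (n i) → V i) ⧸ Γ) ∣ ∏ a, (addOrderOf (c a) * addOrderOf (w a)) := by
  classical
  set g := ∑ i, n i with hg
  let N : Subgroup G := ⨅ i, (ρ i).ker
  have hN : ∀ σ : G, σ ∈ N ↔ ∀ i, ρ i σ = 1 := by
    intro σ
    simp only [N, Subgroup.mem_iInf, MonoidHom.mem_ker]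
  let Γ' : AddSubgroup (∀ a : Fin g, V (ty n a)) := Γ.map (flat n V)
  have hfin' : (Γ' : Set (∀ a : Fin g, V (ty n a))).Finite := by
    rw [AddSubgroup.coe_map]
    exact hfin.image _
  have hact : ∀ (σ : N) (y : ∀ i, Fin (n i) → V i),
      (fun a => act (ty n a) (σ : G) (flat n V y a)) = flat n V (tws act ρ (σ : G) y) := by
    intro σ y
    funext a
    show _ = tws act ρ (σ : G) y (ty n a) (pl n a)
    rw [tws_one ((hN _).1 σ.2)]
    rfl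
  have hord : ∀ m : ℕ, m • (x : (∀ i, Fin (n i) → V i) ⧸ Γ) = 0 ↔
      m • ((flat n V x : ∀ a : Fin g, V (ty n a)) : (∀ a : Fin g, V (ty n a)) ⧸ Γ') = 0 := by
    intro m
    rw [← QuotientAddGroup.mk_nsmul, ← QuotientAddGroup.mk_nsmul, QuotientAddGroup.eq_zero_iff,
      QuotientAddGroup.eq_zero_iff, ← map_nsmul]
    constructor
    · intro h
      exact ⟨_, h, rfl⟩
    · rintro ⟨y, hy, h⟩
      rw [← flat_inj h]
      exact hy
  have hoo : addOrderOf (x : (∀ i, Fin (n i) → V i) ⧸ Γ) =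
      addOrderOf ((flat n V x : ∀ a : Fin g, V (ty n a)) : (∀ a : Fin g, V (ty n a)) ⧸ Γ') :=
    addOrderOf_eq_addOrderOf_iff.2 hord
  have hf' : IsOfFinAddOrder ((flat n V x : ∀ a : Fin g, V (ty n a)) :
      (∀ a : Fin g, V (ty n a)) ⧸ Γ') := by
    rw [← addOrderOf_pos_iff, ← hoo]
    exact hf.addOrderOf_pos
  obtain ⟨c, w, h1, h2⟩ := hT N g (fun a => V (ty n a)) (fun a σ => act (ty n a) (σ : G))
    (fun a => hsp (ty n a)) Γ' hfin' (by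
      rintro σ y ⟨z, hz, rfl⟩
      rw [hact σ z]
      exact ⟨_, hst _ z hz, rfl⟩) (flat n V x) (by
      intro σ
      refine ⟨_, hx (σ : G), ?_⟩
      rw [map_sub, ← hact σ x]
      rfl) hf'
  refine ⟨c, w, fun a => ⟨(h1 a).1, (h1 a).2.1, fun σ hσ => (h1 a).2.2.1 ⟨σ, hσ⟩,
    fun σ hσ => (h1 a).2.2.2 ⟨σ, hσ⟩⟩, ?_⟩
  rw [hoo]
  exact h2

end

end Pool.Agent.P8H12.ST
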